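import Mathlib
import Pool.Agent.Helper96.MC.CSt

/-!
MP_4042d8_co, section C, row C1: diamonds.
-/

set_option autoImplicit false
set_option linter.unusedSectionVars false
set_option linter.unusedSimpArgs false
set_option linter.unusedVariables false

namespace Pool.Agent.Helper79.MC

open Pool.Agent.Helper27.MC
open Pool.Agent.Helper51.MC Pool.Agent.Helper88.MC Pool.Agent.Helper64.MC
open Pool.Agent.Helper91.MC Pool.Agent.Helper42.MC Pool.Agent.Helper96.MC

variable {V : Type} [Fintype V] [DecidableEq V] {G : SimpleGraph V} [DecidableRel G.Adj]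
  {c : V → Bool}

/-- comparison of `Kp` -/
theorem kp_lt {c1 : V → Bool} (h : ∀ v w, Apx G c1 v → Rm G c1 v w → Apx G c v ∧ Rm G c v w)
    {q : V} (hq : Apx G c q) (h1 : ¬ Apx G c1 q) (h2 : ∀ w, Rm G c1 w q → ¬ Apx G c1 w) :
    Kp G c1 < Kp G c := by
  classical
  have tru : ∀ (c : V → Bool) (v : V), Apx G c v → c v = true := by
    rintro c v ⟨s, s', ht, _⟩
    exact ht.1
  unfold Kp
  refine Finset.card_lt_card ?_
  rw [Finset.ssubset_iff_of_subset]
  · refine ⟨q, ?_, ?_⟩
    · rw [Finset.mem_filter]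
      have hq' := hq
      obtain ⟨s, s', ht, _⟩ := hq'
      obtain ⟨p, hp⟩ := exists_mate ht.2
      exact ⟨Finset.mem_univ _, ht.1, p, hp, Or.inl hq⟩
    · rw [Finset.mem_filter]
      rintro ⟨_, _, w, hw, h3 | h3⟩
      · exact h1 h3
      · exact h2 w hw.symm h3
  · intro v hv
    rw [Finset.mem_filter] at hv ⊢
    obtain ⟨_, h3, w, h4, h5 | h5⟩ := hv
    · obtain ⟨h6, h7⟩ := h v w h5 h4
      exact ⟨Finset.mem_univ _, tru c v h6, w, h7, Or.inl h6⟩
    · obtain ⟨h6, h7⟩ := h w v h5 h4.symm
      refine ⟨Finset.mem_univ _, ?_, w, h7.symm, Or.inr h6⟩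
      rw [h7.2, tru c w h6]

/-- the mate of the apex is adjacent to exactly one corner: impossible -/
theorem dia_p (hG : G.IsRegularOfDegree 3) {j : ℕ} (hj : 1 ≤ j) (hC : CK G c j)
    {q p x x' n' : V} (h : Td G c q p x x' p n') (hn : n' ≠ p) : False := by
  have hO := hC.1
  have hm := hO.mu1
  have nq := h.nq.nb
  have nx := h.nx.nb
  have nx' := h.nx'.nb
  have cq := h.cq
  have cp := h.cp
  have cx := h.cx
  have cx' := h.cx'
  have cn' := h.cn'
  have apq : G.Adj p q := ((nq p).2 (Or.inl rfl)).symm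
  have apx : G.Adj p x := ((nx p).2 (by simp)).symm
  have hxq : q ≠ x := (ne_col cx cq).symm
  obtain ⟨z, hz⟩ := n3_of2 hG apq apx hxq
  have np := hz.nb
  have zx' : z ≠ x' := by
    intro e
    have h1 : G.Adj x' p := ((np x').2 (by simp [e])).symm
    have h2 := (nx' p).1 h1
    have e1 : p ≠ q := hz.nb q |>.2 (by simp) |>.ne
    have e2 : p ≠ x := (ne_col cx cp).symm
    rcases h2 with h2 | h2 | h2
    · exact e1 h2
    · exact e2 h2
    · exact hn h2.symm
  have rpq : Rm G c p q := ⟨apq, by rw [cq, cp]⟩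
  have cz : c z = false := by
    cases hc : c z
    · rfl
    · exact absurd (rm_uniq (hm p) rpq ⟨(np z).2 (by simp), by rw [hc, cp]⟩) hz.xz
  have rxx := h.rxx
  have tp : tQ G c p := ⟨cp, mu_of_rm hm rpq⟩
  have tx : tS G c x := ⟨cx, mu_of_rm hm rxx⟩
  have mz : mu G c z = 0 := by
    by_contra hz0
    have h1 := hm z
    have tz : tS G c z := ⟨cz, by omega⟩
    have h2 := F1 hG hj hO tp tx tz apx ((np z).2 (by simp)) hz.yz
    exact zx' (rm_uniq (hm x) h2 rxx)
  have sw : Sw G c p q z x x' q := by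
    refine ⟨cp, cx, cq, cz, cx', cq, fun w => ?_, fun w => ?_, hz.yz.symm, apq.ne.symm,
      Or.inr mz, Or.inl rfl⟩
    · rw [np w]
      tauto
    · rw [nx w]
      tauto
  have hmu := sw.ml hm
  have hrm := sw.rm
  have cost0 : cost G c {p, x} ≤ 0 := by
    have e : ({p, x} : Finset V) = [p, x].toFinset := by simp
    rw [e, cost_list c _ (by simp [apx.ne])]
    simp only [cl_cons, cl_nil, List.map_cons, List.map_nil, List.sum_cons, List.sum_nil]
    rw [sf_adj apx (by rw [cp, cx]; decide), tp.2, tx.2]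
    norm_num
  have dd0 : dd c {p, x} = 0 := by
    have e : ({p, x} : Finset V) = [p, x].toFinset := by simp
    rw [e, dd_list c _ (by simp [apx.ne])]
    simp only [dl_cons, dl_nil, cp, cx]
    norm_num
  have hO1 : Opt G (flp c {p, x}) j := (ZERO V G hG c j hO).1 _ cost0 dd0 hmu
  have c1 : ∀ v, v ≠ p → v ≠ x → flp c {p, x} v = c v := by
    intro v h1 h2
    unfold flp
    simp [h1, h2]
  have c1p : flp c {p, x} p = false := by
    unfold flp
    simp [cp]
  have c1x : flp c {p, x} x = true := by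
    unfold flp
    simp [cx]
  have c1q : flp c {p, x} q = true := by rw [c1 q apq.ne.symm hxq, cq]
  have c1z : flp c {p, x} z = false := by
    rw [c1 z (ne_col cz cp) hz.yz.symm, cz]
  have c1x' : flp c {p, x} x' = false := by
    rw [c1 x' (ne_col cx' cp) h.nq.yz.symm, cx']
  have key : ∀ v w, Apx G (flp c {p, x}) v → Rm G (flp c {p, x}) v w →
      Apx G c v ∧ Rm G c v w := by
    rintro v w ⟨s, s', ⟨cv, _⟩, a1, a2, r1, c1s⟩ rv
    rw [hrm] at r1 rv
    have vp : v ≠ p := by rintro rfl; rw [c1p] at cv; cases cv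
    have vz : v ≠ z := by rintro rfl; rw [c1z] at cv; cases cv
    rcases r1 with ⟨r1, s1, s2, s3, s4⟩ | ⟨e1, e2⟩ | ⟨e1, e2⟩ | ⟨e1, e2⟩ | ⟨e1, e2⟩
    · have cs : c s = false := by rw [← c1 s s1 s2, c1s]
      have vx : v ≠ x := by
        rintro rfl
        rcases (nx s).1 a1 with e | e | e
        · rw [e, cq] at cs
          cases cs
        · subst e
          exact s4 (rm_uniq (hm s) r1 rxx.symm)
        · exact s1 e
      have vq : v ≠ q := by
        rintro rfl
        rcases (nq s).1 a1 with e | e | e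
        · exact s1 e
        · exact s2 e
        · subst e
          exact s4 (rm_uniq (hm s) r1 rxx.symm)
      rcases rv with ⟨rv, -, -, -, -⟩ | ⟨e1, e2⟩ | ⟨e1, e2⟩ | ⟨e1, e2⟩ | ⟨e1, e2⟩
      · have cv' : c v = true := by rw [← c1 v vp vx, cv]
        exact ⟨⟨s, s', ⟨cv', mu_of_rm hm rv⟩, a1, a2, r1, cs⟩, rv⟩
      · exact absurd e1 vp
      · exact absurd e1 vz
      · exact absurd e1 vx
      · exact absurd e1 vq
    · exfalso
      subst e1 e2
      rcases (np v).1 a1.symm with e | e | e
      · subst e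
        rcases (nq s').1 a2 with e | e | e
        · rw [e] at cz; rw [cz] at cp; cases cp
        · exact hz.yz e.symm
        · exact zx' e
      · subst e
        rcases (nx s').1 a2 with e | e | e
        · rw [e] at cz; rw [cz] at cq; cases cq
        · exact zx' e
        · rw [e] at cz; rw [cz] at cp; cases cp
      · exact vz e
    · exfalso
      subst e1 e2
      rcases (np v).1 a2.symm with e | e | e
      · subst e
        rcases (nq s).1 a1 with e | e | e
        · rw [e] at cz; rw [cz] at cp; cases cp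
        · exact hz.yz e.symm
        · exact zx' e
      · subst e
        rcases (nx s).1 a1 with e | e | e
        · rw [e] at cz; rw [cz] at cq; cases cq
        · exact zx' e
        · rw [e] at cz; rw [cz] at cp; cases cp
      · exact vz e
    · subst e1
      rw [c1x] at c1s
      cases c1s
    · subst e1
      rw [c1q] at c1s
      cases c1s
  have lt : Kp G (flp c {p, x}) < Kp G c := by
    refine kp_lt key (h.apx hm) ?_ ?_
    · intro hq
      have rqx : Rm G (flp c {p, x}) q x := by
        rw [hrm]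
        simp
      have h1 := (key q x hq rqx).2.2
      rw [cx, cq] at h1
      cases h1
    · intro w hw ha
      have h1 := (key w q ha hw).2
      have h2 := rm_uniq (hm q) h1.symm rpq.symm
      subst h2
      obtain ⟨_, _, ht, _⟩ := ha
      have := ht.1
      rw [c1p] at this
      cases this
  exact absurd (hC.2 _ hO1) (not_le.2 lt)

/-- the two corners have a common outer neighbour: impossible -/
theorem dia_n (hG : G.IsRegularOfDegree 3) {j : ℕ} (hj : 1 ≤ j) (hC : CK G c j)
    {q p x x' n : V} (h : Td G c q p x x' n n) (hn : n ≠ p) : False := by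
  have hO := hC.1
  have hm := hO.mu1
  have nq := h.nq.nb
  have nx := h.nx.nb
  have nx' := h.nx'.nb
  have cq := h.cq
  have cp := h.cp
  have cx := h.cx
  have cx' := h.cx'
  have cn := h.cn
  have rxx := h.rxx
  have rqp := h.rqp
  have aqp : G.Adj q p := (nq p).2 (Or.inl rfl)
  have aqx : G.Adj q x := (nq x).2 (by simp)
  have aqx' : G.Adj q x' := (nq x').2 (by simp)
  have anx : G.Adj n x := ((nx n).2 (by simp)).symm
  have anx' : G.Adj n x' := ((nx' n).2 (by simp)).symm
  have xx : x ≠ x' := h.nq.yz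
  have qn : q ≠ n := h.nx.xz
  have nqn : ¬ G.Adj q n := by
    intro h1
    rcases (nq n).1 h1 with e | e | e
    · exact hn e
    · exact ne_col cx cn e.symm
    · exact ne_col cx' cn e.symm
  obtain ⟨f, hf⟩ := n3_of2 hG anx anx' xx
  have nn := hf.nb
  have qx : q ≠ x := aqx.ne
  have qx' : q ≠ x' := aqx'.ne
  have nx1 : n ≠ x := anx.ne
  have nx1' : n ≠ x' := anx'.ne
  have mq : mu G c q = 1 := mu_of_rm hm rqp
  have mx : mu G c x = 1 := mu_of_rm hm rxx
  have mx' : mu G c x' = 1 := mu_of_rm hm rxx.symm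
  have e1 : sf G c q x = 1 := sf_adj aqx (by rw [cq, cx]; decide)
  have e2 : sf G c q x' = 1 := sf_adj aqx' (by rw [cq, cx']; decide)
  have e3 : sf G c n x = 1 := sf_adj anx (by rw [cn, cx]; decide)
  have e4 : sf G c n x' = 1 := sf_adj anx' (by rw [cn, cx']; decide)
  have e5 : sf G c x x' = -1 := sf_rm rxx
  have e6 : sf G c q n = 0 := sf_nadj nqn
  by_cases mn : mu G c n = 0
  swap
  · have mn1 : mu G c n = 1 := by
      have := hm n
      omega
    have h1 := P0 hG hO [q, n, x, x'] (by simp [qn, qx, qx', nx1, nx1', xx])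
      (by simp [dl_cons, dl_nil, cq, cn, cx, cx'])
    simp only [cl_cons, cl_nil, List.map_cons, List.map_nil, List.sum_cons, List.sum_nil] at h1
    rw [mq, mn1, mx, mx', e1, e2, e3, e4, e5, e6] at h1
    norm_num at h1
  have anf : G.Adj n f := (nn f).2 (by simp)
  have cf : c f = false := by
    cases hc : c f
    · rfl
    · exact absurd ⟨anf, by rw [hc, cn]⟩ (nomate mn f)
  have xf : x ≠ f := hf.xz
  have xf' : x' ≠ f := hf.yz
  have qf : q ≠ f := (ne_col cf cq).symm
  have nf : n ≠ f := anf.ne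
  have e7 : sf G c n f = 1 := sf_adj anf (by rw [cn, cf]; decide)
  by_cases mf : mu G c f = 0
  swap
  · have mf1 : mu G c f = 1 := by
      have := hm f
      omega
    have h1 := Ppos hG hO [q, n, x, x', f]
      (by simp [qn, qx, qx', nx1, nx1', xx, qf, nf, xf, xf']) 1
      (by simp [dl_cons, dl_nil, cq, cn, cx, cx', cf]) (by exact_mod_cast hj)
    have e8 : 0 ≤ sf G c q f := sf_ge (by rw [cq, cf]; decide)
    have e9 : 0 ≤ sf G c x f := sf_nrm fun hr => xf' (rm_uniq (hm x) rxx hr)
    have e10 : 0 ≤ sf G c x' f := sf_nrm fun hr => xf (rm_uniq (hm x') rxx.symm hr)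
    simp only [cl_cons, cl_nil, List.map_cons, List.map_nil, List.sum_cons, List.sum_nil] at h1
    rw [mq, mn, mx, mx', mf1, e1, e2, e3, e4, e5, e6, e7] at h1
    push_cast at h1
    linarith
  -- the flip of `q, n, x, x'`
  have eX : ({q, n, x, x'} : Finset V) = [q, n, x, x'].toFinset := by simp
  have cost0 : cost G c {q, n, x, x'} ≤ 0 := by
    rw [eX, cost_list c _ (by simp [qn, qx, qx', nx1, nx1', xx])]
    simp only [cl_cons, cl_nil, List.map_cons, List.map_nil, List.sum_cons, List.sum_nil]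
    rw [mq, mn, mx, mx', e1, e2, e3, e4, e5, e6]
    norm_num
  have dd0 : dd c {q, n, x, x'} = 0 := by
    rw [eX, dd_list c _ (by simp [qn, qx, qx', nx1, nx1', xx])]
    simp only [dl_cons, dl_nil, cq, cn, cx, cx']
    norm_num
  have mem : ∀ v, v ∈ ({q, n, x, x'} : Finset V) ↔ v = q ∨ v = n ∨ v = x ∨ v = x' := by
    intro v
    simp
  have nR : ∀ w, ¬ Rm G c n w := nomate mn
  have fR : ∀ w, ¬ Rm G c f w := nomate mf
  have l : ∀ x, ¬ G.Adj x x := fun x => G.loopless.irrefl x
  have hrm : ∀ v w, Rm G (flp c {q, n, x, x'}) v w ↔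
      (Rm G c v w ∧ v ≠ q ∧ v ≠ n ∧ v ≠ x ∧ v ≠ x' ∧ w ≠ q ∧ w ≠ n ∧ w ≠ x ∧ w ≠ x') ∨
      (v = x ∧ w = x') ∨ (v = x' ∧ w = x) ∨ (v = n ∧ w = f) ∨ (v = f ∧ w = n) := by
    have nq' : ∀ w, G.Adj w q ↔ w = p ∨ w = x ∨ w = x' := fun w => by rw [G.adj_comm, nq]
    have nn' : ∀ w, G.Adj w n ↔ w = x ∨ w = x' ∨ w = f := fun w => by rw [G.adj_comm, nn]
    have nx1 : ∀ w, G.Adj w x ↔ w = q ∨ w = x' ∨ w = n := fun w => by rw [G.adj_comm, nx]
    have nx1' : ∀ w, G.Adj w x' ↔ w = q ∨ w = x ∨ w = n := fun w => by rw [G.adj_comm, nx']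
    intro v w
    unfold Rm flp
    simp only [mem]
    by_cases v1 : v = q
    · subst v1
      by_cases w1 : w = p
      · subst w1
        grind
      · grind
    by_cases v2 : v = n
    · subst v2
      grind
    by_cases v3 : v = x
    · subst v3
      grind
    by_cases v4 : v = x'
    · subst v4
      grind
    by_cases w1 : w = q
    · subst w1
      grind
    by_cases w2 : w = n
    · subst w2
      grind
    by_cases w3 : w = x
    · subst w3
      grind
    by_cases w4 : w = x'
    · subst w4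
      grind
    grind
  have hmu : ∀ v, mu G (flp c {q, n, x, x'}) v ≤ 1 := by
    intro v
    refine mu_le_uniq fun y z hy hz => ?_
    rw [hrm] at hy hz
    have u : ∀ y z, Rm G c v y → Rm G c v z → y = z := fun y z h1 h2 => rm_uniq (hm v) h1 h2
    rcases hy with ⟨hy, y1⟩ | ⟨y1, y2⟩ | ⟨y1, y2⟩ | ⟨y1, y2⟩ | ⟨y1, y2⟩ <;>
      rcases hz with ⟨hz, z1⟩ | ⟨z1, z2⟩ | ⟨z1, z2⟩ | ⟨z1, z2⟩ | ⟨z1, z2⟩ <;>
      first
        | exact u y z hy hz
        | (rw [y2, z2]; done)
        | (exfalso; rw [y1] at hz; exact fR _ hz)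
        | (exfalso; rw [z1] at hy; exact fR _ hy)
        | grind
  have hO1 : Opt G (flp c {q, n, x, x'}) j := (ZERO V G hG c j hO).1 _ cost0 dd0 hmu
  have c1 : ∀ v, v ≠ q → v ≠ n → v ≠ x → v ≠ x' → flp c {q, n, x, x'} v = c v := by
    intro v h1 h2 h3 h4
    unfold flp
    simp [h1, h2, h3, h4]
  have c1q : flp c {q, n, x, x'} q = false := by unfold flp; simp [cq]
  have c1n : flp c {q, n, x, x'} n = false := by unfold flp; simp [cn]
  have c1x : flp c {q, n, x, x'} x = true := by unfold flp; simp [cx]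
  have c1x' : flp c {q, n, x, x'} x' = true := by unfold flp; simp [cx']
  have c1f : flp c {q, n, x, x'} f = false := by
    rw [c1 f qf.symm nf.symm xf.symm xf'.symm, cf]
  have key : ∀ v w, Apx G (flp c {q, n, x, x'}) v → Rm G (flp c {q, n, x, x'}) v w →
      Apx G c v ∧ Rm G c v w := by
    rintro v w ⟨s, s', ⟨cv, _⟩, a1, a2, r1, c1s⟩ rv
    rw [hrm] at r1 rv
    have vq : v ≠ q := by rintro rfl; rw [c1q] at cv; cases cv
    have vn : v ≠ n := by rintro rfl; rw [c1n] at cv; cases cv
    have vf : v ≠ f := by rintro rfl; rw [c1f] at cv; cases cv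
    rcases r1 with ⟨r1, s1, s2, s3, s4, s5⟩ | ⟨e1, e2⟩ | ⟨e1, e2⟩ | ⟨e1, e2⟩ | ⟨e1, e2⟩
    · have cs : c s = false := by rw [← c1 s s1 s2 s3 s4, c1s]
      have vx : v ≠ x := by
        rintro rfl
        rcases (nx s).1 a1 with e | e | e
        · exact s1 e
        · exact s4 e
        · exact s2 e
      have vx' : v ≠ x' := by
        rintro rfl
        rcases (nx' s).1 a1 with e | e | e
        · exact s1 e
        · exact s3 e
        · exact s2 e
      rcases rv with ⟨rv, -⟩ | ⟨e1, e2⟩ | ⟨e1, e2⟩ | ⟨e1, e2⟩ | ⟨e1, e2⟩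
      · have cv' : c v = true := by rw [← c1 v vq vn vx vx', cv]
        exact ⟨⟨s, s', ⟨cv', mu_of_rm hm rv⟩, a1, a2, r1, cs⟩, rv⟩
      · exact absurd e1 vx
      · exact absurd e1 vx'
      · exact absurd e1 vn
      · exact absurd e1 vf
    · subst e1
      rw [c1x] at c1s
      cases c1s
    · subst e1
      rw [c1x'] at c1s
      cases c1s
    · exfalso
      subst e1 e2
      rcases (nn v).1 a1.symm with e | e | e
      · subst e
        rcases (nx s').1 a2 with e | e | e
        · exact qf e.symm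
        · exact xf' e.symm
        · exact nf e.symm
      · subst e
        rcases (nx' s').1 a2 with e | e | e
        · exact qf e.symm
        · exact xf e.symm
        · exact nf e.symm
      · exact vf e
    · exfalso
      subst e1 e2
      rcases (nn v).1 a2.symm with e | e | e
      · subst e
        rcases (nx s).1 a1 with e | e | e
        · exact qf e.symm
        · exact xf' e.symm
        · exact nf e.symm
      · subst e
        rcases (nx' s).1 a1 with e | e | e
        · exact qf e.symm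
        · exact xf e.symm
        · exact nf e.symm
      · exact vf e
  have lt : Kp G (flp c {q, n, x, x'}) < Kp G c := by
    refine kp_lt key (h.apx hm) ?_ ?_
    · rintro ⟨_, _, ht, _⟩
      have := ht.1
      rw [c1q] at this
      cases this
    · intro w hw ha
      obtain ⟨_, _, ht, _⟩ := ha
      have h1 := hw.2
      rw [c1q, ht.1] at h1
      cases h1
  exact absurd (hC.2 _ hO1) (not_le.2 lt)

/-- row C1 -/
theorem C1 : Pool.Agent.Helper96.MC.ST_C1 := by
  intro V _ _ G _ hG c j hj hC q p x x' n n' h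
  by_cases h1 : n = p
  · subst h1
    by_cases h2 : n' = n
    · exact Or.inl ⟨rfl, h2⟩
    · exact (dia_p hG hj hC h h2).elim
  · by_cases h2 : n' = p
    · subst h2
      exact (dia_p hG hj hC h.swap h1).elim
    · refine Or.inr ⟨h1, h2, ?_⟩
      rintro rfl
      exact dia_n hG hj hC h h1

end Pool.Agent.Helper79.MC
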