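import Mathlib
import Pool.Agent.Helper79.MC.C1
import Pool.Agent.Helper35.MC.DF3

/-!
MP_4042d8_co, section D, arbitrary simple cubic graphs: facts on `A`-vertices with several free
neighbours.
-/

set_option autoImplicit false
set_option linter.unusedSectionVars false
set_option linter.unusedSimpArgs false
set_option linter.unusedVariables false

namespace Pool.Agent.Helper79.MC

open Pool.Agent.Helper27.MC hiding Fr T1 ter
open Pool.Agent.Helper51.MC Pool.Agent.Helper88.MC Pool.Agent.Helper64.MC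
open Pool.Agent.Helper91.MC Pool.Agent.Helper42.MC Pool.Agent.Helper96.MC Pool.Agent.Helper35.MC

section defs

variable {V : Type} [Fintype V] [DecidableEq V] (G : SimpleGraph V) [DecidableRel G.Adj]

/-- no optimal colouring has a 3-hub (true for `2 ≤ j`) -/
def NH (j : ℕ) : Prop :=
  ∀ c, Opt G c j → ∀ a s1 s2 s3 v1 v2 v3 p1 p2 p3, ¬ Hub3 G c a s1 s2 s3 v1 v2 v3 p1 p2 p3

/-- general square: free vertices `s1, s2` (not mates, mates `v1, v2`) with the `A`-neighbours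
`a, b`; third neighbours `za` of `a` and `zb` of `b` -/
structure Sqg (c : V → Bool) (s1 s2 a b v1 v2 za zb : V) : Prop where
  h1 : Sv G c s1 v1 a b
  h2 : Sv G c s2 v2 a b
  ha : Av G c a s1 s2 za
  hb : Av G c b s1 s2 zb
  ta : tA G c a
  tb : tA G c b
  n12 : ¬ Rm G c s1 s2
  zab : za ≠ zb
  ka : tB G c za ∨ (za = v1 ∧ v1 ∈ T1 G c) ∨ (za = v2 ∧ v2 ∈ T1 G c)
  kb : tB G c zb ∨ (zb = v1 ∧ v1 ∈ T1 G c) ∨ (zb = v2 ∧ v2 ∈ T1 G c)

end defs

variable {V : Type} [Fintype V] [DecidableEq V] {G : SimpleGraph V} [DecidableRel G.Adj]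
  {c : V → Bool} {j : ℕ}

/-- three neighbours of type `S` of an `A`-vertex: two of them are mates -/
theorem NH.use (hN : NH G j) (hG : G.IsRegularOfDegree 3) (hO : Opt G c j) {a s1 s2 s3 : V}
    (av : Av G c a s1 s2 s3) (ta : tA G c a) (h1 : tS G c s1) (h2 : tS G c s2) (h3 : tS G c s3) :
    Rm G c s1 s2 ∨ Rm G c s1 s3 ∨ Rm G c s2 s3 := by
  by_contra hcon
  push Not at hcon
  obtain ⟨n12, n13, n23⟩ := hcon
  have a1 : G.Adj a s1 := (av.n3.nb s1).2 (by simp)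
  have a2 : G.Adj a s2 := (av.n3.nb s2).2 (by simp)
  have a3 : G.Adj a s3 := (av.n3.nb s3).2 (by simp)
  obtain ⟨v1, p1, k1⟩ := sv_ex hG h1 a1.symm ta.1
  obtain ⟨v2, p2, k2⟩ := sv_ex hG h2 a2.symm ta.1
  obtain ⟨v3, p3, k3⟩ := sv_ex hG h3 a3.symm ta.1
  exact hN c hO a s1 s2 s3 v1 v2 v3 p1 p2 p3 ⟨av, k1, k2, k3, n12, n13, n23⟩

theorem mate_eq (hm : ∀ v, mu G c v ≤ 1) {s v w a b : V} (h : Sv G c s v a b) (hr : Rm G c s w) :
    w = v := rm_uniq (hm s) hr (sv_rm h)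

/-- two free neighbours of an `A`-vertex which are not mates have the same second `A`-neighbour -/
theorem same_b (hG : G.IsRegularOfDegree 3) (hj : 1 ≤ j) (hO : Opt G c j) (hN : NH G j)
    {a s1 s2 v1 v2 b1 b2 : V} (ta : tA G c a) (h1 : Sv G c s1 v1 a b1) (h2 : Sv G c s2 v2 a b2)
    (tb1 : tA G c b1) (tb2 : tA G c b2) (n12 : ¬ Rm G c s1 s2) (ne : s1 ≠ s2) : b1 = b2 := by
  by_contra hb
  have hm := hO.mu1
  have a1 : G.Adj a s1 := ((h1.n3.nb a).2 (by simp)).symm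
  have a2 : G.Adj a s2 := ((h2.n3.nb a).2 (by simp)).symm
  obtain ⟨z, av⟩ := av_two hG ta a1 a2 ne
  have ca := ta.1
  have cs1 := h1.cs
  have cs2 := h2.cs
  have cz := av.cz
  have cv1 := h1.cm
  have cv2 := h2.cm
  have cb1 := h1.cb
  have cb2 := h2.cb
  have nad : ¬ G.Adj s1 s2 := fun h => n12 ⟨h, by rw [cs1, cs2]⟩
  have ms1 : mu G c s1 = 1 := (sv_tS hm h1).2
  have ms2 : mu G c s2 = 1 := (sv_tS hm h2).2
  have v1s2 : v1 ≠ s2 := fun e => n12 (e ▸ sv_rm h1)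
  have v2s1 : v2 ≠ s1 := fun e => n12 (e ▸ sv_rm h2).symm
  -- the mate of `z`, if any, is `s1` or `s2`
  have kz : ∀ w, Rm G c z w → w = s1 ∨ w = s2 := by
    intro w hw
    have tz : tS G c z := ⟨cz, mu_of_rm hm hw⟩
    rcases hN.use hG hO av ta (sv_tS hm h1) (sv_tS hm h2) tz with h | h | h
    · exact absurd h n12
    · exact Or.inl (rm_uniq (hm z) hw h.symm)
    · exact Or.inr (rm_uniq (hm z) hw h.symm)
  have eX : ({s1, a, s2} : Finset V) = [s1, a, s2].toFinset := by simp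
  have mem : ∀ v, v ∈ ({s1, a, s2} : Finset V) ↔ v = s1 ∨ v = a ∨ v = s2 := by
    intro v
    simp
  have n1 := h1.n3.nb
  have n2 := h2.n3.nb
  have na := av.n3.nb
  have aR : ∀ w, ¬ Rm G c a w := nomate ta.2
  have b1R : ∀ w, ¬ Rm G c b1 w := nomate tb1.2
  have b2R : ∀ w, ¬ Rm G c b2 w := nomate tb2.2
  have l : ∀ x, ¬ G.Adj x x := fun x => G.loopless.irrefl x
  have zs1 : s1 ≠ z := av.n3.xz
  have zs2 : s2 ≠ z := av.n3.yz
  have hab1 : a ≠ b1 := h1.n3.yz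
  have hab2 : a ≠ b2 := h2.n3.yz
  have r1 : ∀ w, Rm G c s1 w → w = v1 := fun w hw => mate_eq hm h1 hw
  have r2 : ∀ w, Rm G c s2 w → w = v2 := fun w hw => mate_eq hm h2 hw
  have hrm : ∀ v w, Rm G (flp c {s1, a, s2}) v w ↔
      (Rm G c v w ∧ v ≠ s1 ∧ v ≠ a ∧ v ≠ s2 ∧ w ≠ s1 ∧ w ≠ a ∧ w ≠ s2) ∨
      (v = s1 ∧ w = b1) ∨ (v = b1 ∧ w = s1) ∨ (v = s2 ∧ w = b2) ∨ (v = b2 ∧ w = s2) ∨
      (v = a ∧ w = z) ∨ (v = z ∧ w = a) := by
    have n1' : ∀ w, G.Adj w s1 ↔ w = v1 ∨ w = a ∨ w = b1 := fun w => by rw [G.adj_comm, n1]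
    have n2' : ∀ w, G.Adj w s2 ↔ w = v2 ∨ w = a ∨ w = b2 := fun w => by rw [G.adj_comm, n2]
    have na' : ∀ w, G.Adj w a ↔ w = s1 ∨ w = s2 ∨ w = z := fun w => by rw [G.adj_comm, na]
    intro v w
    unfold Rm flp
    simp only [mem]
    by_cases e1 : v = s1
    · subst e1
      grind
    by_cases e2 : v = a
    · subst e2
      grind
    by_cases e3 : v = s2
    · subst e3
      grind
    by_cases f1 : w = s1
    · subst f1
      grind
    by_cases f2 : w = a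
    · subst f2
      grind
    by_cases f3 : w = s2
    · subst f3
      grind
    grind
  have hmu : ∀ v, mu G (flp c {s1, a, s2}) v ≤ 1 := by
    intro v
    refine mu_le_uniq fun y y' hy hy' => ?_
    rw [hrm] at hy hy'
    have u : ∀ y y', Rm G c v y → Rm G c v y' → y = y' := fun y y' h1 h2 => rm_uniq (hm v) h1 h2
    have kz' : ∀ w, Rm G c z w → w ≠ s1 → w ≠ s2 → False := fun w hw k1 k2 =>
      (kz w hw).elim k1 k2
    rcases hy with ⟨hy, y1, y3, y4, y5, y6, y7⟩ | ⟨y1, y2⟩ | ⟨y1, y2⟩ | ⟨y1, y2⟩ | ⟨y1, y2⟩ |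
        ⟨y1, y2⟩ | ⟨y1, y2⟩ <;>
      rcases hy' with ⟨hz, z1, z3, z4, z5, z6, z7⟩ | ⟨z1, z2⟩ | ⟨z1, z2⟩ | ⟨z1, z2⟩ | ⟨z1, z2⟩ |
        ⟨z1, z2⟩ | ⟨z1, z2⟩ <;>
      first
        | exact u _ _ hy hz
        | (rw [y2, z2]; done)
        | (exfalso; rw [y1] at hz; exact b1R _ hz)
        | (exfalso; rw [z1] at hy; exact b1R _ hy)
        | (exfalso; rw [y1] at hz; exact b2R _ hz)
        | (exfalso; rw [z1] at hy; exact b2R _ hy)
        | (exfalso; rw [y1] at hz; exact kz' _ hz z5 z7)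
        | (exfalso; rw [z1] at hy; exact kz' _ hy y5 y7)
        | grind
  refine Pcrit hG hO [s1, a, s2] (by simp [a1.ne.symm, a2.ne, ne]) 1
    (by simp [dl_cons, dl_nil, ca, cs1, cs2]) (by norm_num) (by exact_mod_cast hj) ?_ ?_
  · simp only [cl_cons, cl_nil, List.map_cons, List.map_nil, List.sum_cons, List.sum_nil, ms1,
      ms2, ta.2]
    rw [sf_adj a1.symm (by rw [ca, cs1]; decide), sf_nadj nad,
      sf_adj a2 (by rw [ca, cs2]; decide)]
    norm_num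
  · intro v
    rw [← eX]
    exact hmu v

/-- data of a free neighbour -/
theorem fr_sv' (hG : G.IsRegularOfDegree 3) (hm : ∀ v, mu G c v ≤ 1) {s a : V}
    (hs : s ∈ Fr G c) (h : G.Adj a s) (ca : c a = true) :
    ∃ v b, Sv G c s v a b ∧ tA G c b ∧ tA G c a := by
  obtain ⟨v, b, sv⟩ := sv_ex hG (mem_Fr.1 hs).1 h.symm ca
  exact ⟨v, b, sv, ((sv_Fr hm sv).1 hs).2, ((sv_Fr hm sv).1 hs).1⟩

/-- the third neighbour of a hub of a square -/
theorem sq_third (hG : G.IsRegularOfDegree 3) (hO : Opt G c j) (hN : NH G j)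
    {a s1 s2 v1 v2 b z : V} (ta : tA G c a) (h1 : Sv G c s1 v1 a b) (h2 : Sv G c s2 v2 a b)
    (n12 : ¬ Rm G c s1 s2) (av : Av G c a s1 s2 z) : tB G c z ∨ z = v1 ∨ z = v2 := by
  have hm := hO.mu1
  rcases tB_or_tS hm av.cz with h | h
  · exact Or.inl h
  · rcases hN.use hG hO av ta (sv_tS hm h1) (sv_tS hm h2) h with h' | h' | h'
    · exact absurd h' n12
    · exact Or.inr (Or.inl (mate_eq hm h1 h'))
    · exact Or.inr (Or.inr (mate_eq hm h2 h'))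

/-- the third neighbours of the two hubs of a square are different -/
theorem sq_ne (hG : G.IsRegularOfDegree 3) (hj : 1 ≤ j) (hO : Opt G c j) (hN : NH G j)
    {a s1 s2 v1 v2 b z : V} (ta : tA G c a) (tb : tA G c b) (h1 : Sv G c s1 v1 a b)
    (h2 : Sv G c s2 v2 a b) (n12 : ¬ Rm G c s1 s2) (av : Av G c a s1 s2 z)
    (bv : Av G c b s1 s2 z) : False := by
  have hm := hO.mu1
  have ne := av.n3.xy
  have nad : ¬ G.Adj s1 s2 := fun h => n12 ⟨h, by rw [av.cx, av.cy]⟩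
  have hba : a ≠ b := h1.n3.yz
  have a1 : G.Adj a s1 := (av.n3.nb s1).2 (by simp)
  have a2 : G.Adj a s2 := (av.n3.nb s2).2 (by simp)
  have a3 : G.Adj a z := (av.n3.nb z).2 (by simp)
  have b1 : G.Adj b s1 := (bv.n3.nb s1).2 (by simp)
  have b2 : G.Adj b s2 := (bv.n3.nb s2).2 (by simp)
  have b3 : G.Adj b z := (bv.n3.nb z).2 (by simp)
  have nab : ¬ Rm G c a b := nomate ta.2 b
  have nab' : ¬ G.Adj a b := fun h => nab ⟨h, by rw [ta.1, tb.1]⟩
  have hP := Ppos hG hO [s1, s2, a, b, z]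
    (by simp [ne, a1.ne.symm, a2.ne.symm, b1.ne.symm, b2.ne.symm, av.n3.xz, av.n3.yz, hba, a3.ne,
      b3.ne]) 1
    (by simp [dl_cons, dl_nil, ta.1, tb.1, av.cx, av.cy, av.cz]) (by exact_mod_cast hj)
  simp only [cl_cons, cl_nil, List.map_cons, List.map_nil, List.sum_cons, List.sum_nil, ta.2,
    tb.2, (sv_tS hm h1).2, (sv_tS hm h2).2] at hP
  rw [sf_nadj nad, sf_adj a1.symm (by rw [ta.1, av.cx]; decide),
    sf_adj b1.symm (by rw [tb.1, av.cx]; decide), sf_adj a2.symm (by rw [ta.1, av.cy]; decide),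
    sf_adj b2.symm (by rw [tb.1, av.cy]; decide), sf_nadj nab',
    sf_adj a3 (by rw [ta.1, av.cz]; decide), sf_adj b3 (by rw [tb.1, av.cz]; decide)] at hP
  rcases sq_third hG hO hN ta h1 h2 n12 av with h | h | h
  · have e1 : 0 ≤ sf G c s1 z := sf_nrm fun hr => nomate h.2 s1 hr.symm
    have e2 : 0 ≤ sf G c s2 z := sf_nrm fun hr => nomate h.2 s2 hr.symm
    rw [h.2] at hP
    push_cast at hP
    linarith
  · have r1 : Rm G c s1 z := h ▸ sv_rm h1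
    have e2 : 0 ≤ sf G c s2 z := sf_nrm fun hr => ne (rm_uniq (hm z) r1.symm hr.symm)
    rw [sf_rm r1, mu_of_rm hm r1.symm] at hP
    push_cast at hP
    linarith
  · have r1 : Rm G c s2 z := h ▸ sv_rm h2
    have e2 : 0 ≤ sf G c s1 z := sf_nrm fun hr => ne (rm_uniq (hm z) hr.symm r1.symm)
    rw [sf_rm r1, mu_of_rm hm r1.symm] at hP
    push_cast at hP
    linarith

/-- the mate of a vertex of a square which is adjacent to a hub is in `T1` -/
theorem sq_T1 (hG : G.IsRegularOfDegree 3) (hj : 1 ≤ j) (hO : Opt G c j) (hN : NH G j)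
    {a s1 s2 v1 v2 b zb : V} (ta : tA G c a) (tb : tA G c b) (h1 : Sv G c s1 v1 a b)
    (h2 : Sv G c s2 v2 a b) (n12 : ¬ Rm G c s1 s2) (av : Av G c a s1 s2 v1)
    (bv : Av G c b s1 s2 zb) : v1 ∈ T1 G c := by
  have hm := hO.mu1
  have tv : tS G c v1 := sv_tSm hm h1
  have a1 : G.Adj a v1 := (av.n3.nb v1).2 (by simp)
  obtain ⟨m, y, sv⟩ := sv_ex hG tv a1.symm ta.1
  have hms : m = s1 := rm_uniq (hm v1) (sv_rm sv) (sv_rm h1).symm
  subst hms
  rcases tA_or_tQ hm sv.cb with h | h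
  · exfalso
    have hn : ¬ Rm G c v1 s2 := fun hr => av.n3.xy (rm_uniq (hm v1) (sv_rm sv) hr)
    have h3 : y = b := same_b hG hj hO hN ta sv h2 h tb hn av.n3.yz.symm
    subst h3
    have b1 : G.Adj y v1 := ((sv.n3.nb y).2 (by simp)).symm
    rcases (bv.n3.nb v1).1 b1 with e | e | e
    · exact av.n3.xz e.symm
    · exact av.n3.yz e.symm
    · subst e
      exact sq_ne hG hj hO hN ta tb h1 h2 n12 av bv
  · exact (sv_T1 hm sv).2 (Or.inl ⟨ta, h⟩)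

/-- swap the two free vertices -/
theorem av_12 {a x y z : V} (h : Av G c a x y z) : Av G c a y x z :=
  ⟨h.ca, h.cy, h.cx, h.cz, n3_12 h.n3⟩

theorem Sqg.swap {s1 s2 a b v1 v2 za zb : V} (h : Sqg G c s1 s2 a b v1 v2 za zb) :
    Sqg G c s2 s1 a b v2 v1 za zb :=
  ⟨h.h2, h.h1, av_12 h.ha, av_12 h.hb, h.ta, h.tb, fun hr => h.n12 hr.symm, h.zab,
    by rcases h.ka with k | k | k
       · exact Or.inl k
       · exact Or.inr (Or.inr k)
       · exact Or.inr (Or.inl k),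
    by rcases h.kb with k | k | k
       · exact Or.inl k
       · exact Or.inr (Or.inr k)
       · exact Or.inr (Or.inl k)⟩

theorem Sqg.hub {s1 s2 a b v1 v2 za zb : V} (h : Sqg G c s1 s2 a b v1 v2 za zb) :
    Sqg G c s1 s2 b a v1 v2 zb za :=
  ⟨sv_swap h.h1, sv_swap h.h2, h.hb, h.ha, h.tb, h.ta, h.n12, h.zab.symm, h.kb, h.ka⟩

/-- GF3: two free neighbours of an `A`-vertex which are not mates form a square -/
theorem gf3 (hG : G.IsRegularOfDegree 3) (hj : 1 ≤ j) (hO : Opt G c j) (hN : NH G j)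
    {a s1 s2 : V} (ta : tA G c a) (f1 : s1 ∈ Fr G c) (f2 : s2 ∈ Fr G c) (ne : s1 ≠ s2)
    (n12 : ¬ Rm G c s1 s2) (a1 : G.Adj a s1) (a2 : G.Adj a s2) :
    ∃ b v1 v2 za zb, Sqg G c s1 s2 a b v1 v2 za zb := by
  have hm := hO.mu1
  obtain ⟨v1, b1, h1, tb1, _⟩ := fr_sv' hG hm f1 a1 ta.1
  obtain ⟨v2, b2, h2, tb2, _⟩ := fr_sv' hG hm f2 a2 ta.1
  have hb := same_b hG hj hO hN ta h1 h2 tb1 tb2 n12 ne
  subst hb
  obtain ⟨za, av⟩ := av_two hG ta a1 a2 ne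
  have b1s : G.Adj b1 s1 := ((h1.n3.nb b1).2 (by simp)).symm
  have b2s : G.Adj b1 s2 := ((h2.n3.nb b1).2 (by simp)).symm
  obtain ⟨zb, bv⟩ := av_two hG tb1 b1s b2s ne
  have hz : za ≠ zb := by
    rintro rfl
    exact sq_ne hG hj hO hN ta tb1 h1 h2 n12 av bv
  have n21 : ¬ Rm G c s2 s1 := fun h => n12 h.symm
  refine ⟨b1, v1, v2, za, zb, h1, h2, av, bv, ta, tb1, n12, hz, ?_, ?_⟩
  · rcases sq_third hG hO hN ta h1 h2 n12 av with h | h | h
    · exact Or.inl h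
    · subst h
      exact Or.inr (Or.inl ⟨rfl, sq_T1 hG hj hO hN ta tb1 h1 h2 n12 av bv⟩)
    · subst h
      exact Or.inr (Or.inr ⟨rfl, sq_T1 hG hj hO hN ta tb1 h2 h1 n21 (av_12 av) (av_12 bv)⟩)
  · rcases sq_third hG hO hN tb1 (sv_swap h1) (sv_swap h2) n12 bv with h | h | h
    · exact Or.inl h
    · subst h
      exact Or.inr (Or.inl ⟨rfl, sq_T1 hG hj hO hN tb1 ta (sv_swap h1) (sv_swap h2) n12 bv av⟩)
    · subst h
      exact Or.inr (Or.inr ⟨rfl, sq_T1 hG hj hO hN tb1 ta (sv_swap h2) (sv_swap h1) n21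
        (av_12 bv) (av_12 av)⟩)

/-- GKAP: an `A`-vertex has at most two free neighbours -/
theorem gkap (hG : G.IsRegularOfDegree 3) (hj : 1 ≤ j) (hO : Opt G c j) (hN : NH G j)
    {a f1 f2 f3 : V} (av : Av G c a f1 f2 f3) (ta : tA G c a) (k1 : f1 ∈ Fr G c)
    (k2 : f2 ∈ Fr G c) (k3 : f3 ∈ Fr G c) : False := by
  have hm := hO.mu1
  -- reduction to `f1, f2` mates
  have key : ∀ f1 f2 f3, Av G c a f1 f2 f3 → f1 ∈ Fr G c → f2 ∈ Fr G c → f3 ∈ Fr G c →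
      Rm G c f1 f2 → False := by
    intro f1 f2 f3 av k1 k2 k3 r12
    have a1 : G.Adj a f1 := (av.n3.nb f1).2 (by simp)
    have a2 : G.Adj a f2 := (av.n3.nb f2).2 (by simp)
    have a3 : G.Adj a f3 := (av.n3.nb f3).2 (by simp)
    obtain ⟨v1, b1, h1, tb1, _⟩ := fr_sv' hG hm k1 a1 ta.1
    obtain ⟨v2, b2, h2, tb2, _⟩ := fr_sv' hG hm k2 a2 ta.1
    obtain ⟨v3, b, h3, tb, _⟩ := fr_sv' hG hm k3 a3 ta.1
    have n13 : ¬ Rm G c f1 f3 := fun h => av.n3.yz (rm_uniq (hm f1) r12 h)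
    have n23 : ¬ Rm G c f2 f3 := fun h => av.n3.xz (rm_uniq (hm f2) r12.symm h)
    have e1 := same_b hG hj hO hN ta h1 h3 tb1 tb n13 av.n3.xz
    have e2 := same_b hG hj hO hN ta h2 h3 tb2 tb n23 av.n3.yz
    subst e1
    subst e2
    have hba : a ≠ b2 := h1.n3.yz
    have c1 : G.Adj b2 f1 := ((h1.n3.nb b2).2 (by simp)).symm
    have c2 : G.Adj b2 f2 := ((h2.n3.nb b2).2 (by simp)).symm
    have c3 : G.Adj b2 f3 := ((h3.n3.nb b2).2 (by simp)).symm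
    have nab' : ¬ G.Adj a b2 := fun h => nomate ta.2 b2 ⟨h, by rw [ta.1, tb.1]⟩
    have n13' : ¬ G.Adj f1 f3 := fun h => n13 ⟨h, by rw [av.cx, av.cz]⟩
    have n23' : ¬ G.Adj f2 f3 := fun h => n23 ⟨h, by rw [av.cy, av.cz]⟩
    have hP := Ppos hG hO [a, b2, f1, f2, f3]
      (by simp [hba, a1.ne, a2.ne, a3.ne, c1.ne, c2.ne, c3.ne, av.n3.xy, av.n3.xz, av.n3.yz]) 1
      (by simp [dl_cons, dl_nil, ta.1, tb.1, av.cx, av.cy, av.cz]) (by exact_mod_cast hj)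
    simp only [cl_cons, cl_nil, List.map_cons, List.map_nil, List.sum_cons, List.sum_nil, ta.2,
      tb.2, (sv_tS hm h1).2, (sv_tS hm h2).2, (sv_tS hm h3).2] at hP
    rw [sf_nadj nab', sf_adj a1 (by rw [ta.1, av.cx]; decide),
      sf_adj a2 (by rw [ta.1, av.cy]; decide), sf_adj a3 (by rw [ta.1, av.cz]; decide),
      sf_adj c1 (by rw [tb.1, av.cx]; decide), sf_adj c2 (by rw [tb.1, av.cy]; decide),
      sf_adj c3 (by rw [tb.1, av.cz]; decide), sf_rm r12, sf_nadj n13', sf_nadj n23'] at hP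
    norm_num at hP
  rcases hN.use hG hO av ta (mem_Fr.1 k1).1 (mem_Fr.1 k2).1 (mem_Fr.1 k3).1 with h | h | h
  · exact key f1 f2 f3 av k1 k2 k3 h
  · exact key f1 f3 f2 ⟨av.ca, av.cx, av.cz, av.cy, n3_23 av.n3⟩ k1 k3 k2 h
  · refine key f2 f3 f1 ⟨av.ca, av.cy, av.cz, av.cx, n3_23 (n3_12 av.n3)⟩ k2 k3 k1 h

end Pool.Agent.Helper79.MC
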