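import Mathlib
import Pool.Agent.Helper79.MC.G1

/-!
MP_4042d8_co, section D, arbitrary simple cubic graphs: the swap of a square, facts R3 and R4.
-/

set_option autoImplicit false
set_option linter.unusedSectionVars false
set_option linter.unusedSimpArgs false
set_option linter.unusedVariables false

namespace Pool.Agent.Helper79.MC

open Pool.Agent.Helper27.MC hiding Fr T1 ter
open Pool.Agent.Helper51.MC Pool.Agent.Helper88.MC Pool.Agent.Helper64.MC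
open Pool.Agent.Helper91.MC Pool.Agent.Helper42.MC Pool.Agent.Helper96.MC Pool.Agent.Helper35.MC

variable {V : Type} [Fintype V] [DecidableEq V] {G : SimpleGraph V} [DecidableRel G.Adj]
  {c : V → Bool} {j : ℕ}

section swap

variable {s1 s2 a b v1 v2 za zb : V}

/-- mates of the third neighbours -/
theorem Sqg.mza (h : Sqg G c s1 s2 a b v1 v2 za zb) (hm : ∀ v, mu G c v ≤ 1) :
    ∀ w, Rm G c za w → w = s1 ∨ w = s2 := by
  intro w hw
  rcases h.ka with k | ⟨k, _⟩ | ⟨k, _⟩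
  · exact absurd hw (nomate k.2 w)
  · subst k
    exact Or.inl (rm_uniq (hm za) hw (sv_rm h.h1).symm)
  · subst k
    exact Or.inr (rm_uniq (hm za) hw (sv_rm h.h2).symm)

theorem Sqg.mzb (h : Sqg G c s1 s2 a b v1 v2 za zb) (hm : ∀ v, mu G c v ≤ 1) :
    ∀ w, Rm G c zb w → w = s1 ∨ w = s2 := h.hub.mza hm

theorem Sqg.mem (v : V) : v ∈ ({s1, s2, a, b} : Finset V) ↔ v = s1 ∨ v = s2 ∨ v = a ∨ v = b := by
  simp

/-- mono edges after the swap -/
theorem Sqg.rm (h : Sqg G c s1 s2 a b v1 v2 za zb) (hm : ∀ v, mu G c v ≤ 1) (v w : V) :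
    Rm G (flp c {s1, s2, a, b}) v w ↔
      (Rm G c v w ∧ v ≠ s1 ∧ v ≠ s2 ∧ w ≠ s1 ∧ w ≠ s2) ∨ (v = a ∧ w = za) ∨ (v = za ∧ w = a) ∨
        (v = b ∧ w = zb) ∨ (v = zb ∧ w = b) := by
  have ca := h.ta.1
  have cb := h.tb.1
  have cs1 := h.ha.cx
  have cs2 := h.ha.cy
  have cza := h.ha.cz
  have czb := h.hb.cz
  have cv1 := h.h1.cm
  have cv2 := h.h2.cm
  have n1 := h.h1.n3.nb
  have n2 := h.h2.n3.nb
  have na := h.ha.n3.nb
  have nb := h.hb.n3.nb
  have n1' : ∀ w, G.Adj w s1 ↔ w = v1 ∨ w = a ∨ w = b := fun w => by rw [G.adj_comm, n1]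
  have n2' : ∀ w, G.Adj w s2 ↔ w = v2 ∨ w = a ∨ w = b := fun w => by rw [G.adj_comm, n2]
  have na' : ∀ w, G.Adj w a ↔ w = s1 ∨ w = s2 ∨ w = za := fun w => by rw [G.adj_comm, na]
  have nb' : ∀ w, G.Adj w b ↔ w = s1 ∨ w = s2 ∨ w = zb := fun w => by rw [G.adj_comm, nb]
  have l : ∀ x, ¬ G.Adj x x := fun x => G.loopless.irrefl x
  have ab : a ≠ b := h.h1.n3.yz
  have ss : s1 ≠ s2 := h.ha.n3.xy
  have e1 : s1 ≠ za := h.ha.n3.xz
  have e2 : s2 ≠ za := h.ha.n3.yz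
  have e3 : s1 ≠ zb := h.hb.n3.xz
  have e4 : s2 ≠ zb := h.hb.n3.yz
  have zz := h.zab
  have k12 : v1 ≠ s2 := fun e => h.n12 (e ▸ sv_rm h.h1)
  have k21 : v2 ≠ s1 := fun e => h.n12 (e ▸ sv_rm h.h2).symm
  have aR : ∀ w, ¬ Rm G c a w := nomate h.ta.2
  have bR : ∀ w, ¬ Rm G c b w := nomate h.tb.2
  unfold Rm flp at *
  simp only [Sqg.mem]
  by_cases g1 : v = s1
  · subst g1
    grind
  by_cases g2 : v = s2
  · subst g2
    grind
  by_cases g3 : v = a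
  · subst g3
    grind
  by_cases g4 : v = b
  · subst g4
    grind
  by_cases f1 : w = s1
  · subst f1
    grind
  by_cases f2 : w = s2
  · subst f2
    grind
  by_cases f3 : w = a
  · subst f3
    grind
  by_cases f4 : w = b
  · subst f4
    grind
  grind

/-- colours after the swap -/
theorem Sqg.col (v : V) (h1 : v ≠ s1) (h2 : v ≠ s2) (h3 : v ≠ a) (h4 : v ≠ b) :
    flp c {s1, s2, a, b} v = c v := by
  unfold flp
  simp [h1, h2, h3, h4]

theorem Sqg.ml (h : Sqg G c s1 s2 a b v1 v2 za zb) (hm : ∀ v, mu G c v ≤ 1) (v : V) :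
    mu G (flp c {s1, s2, a, b}) v ≤ 1 := by
  refine mu_le_uniq fun y y' hy hy' => ?_
  rw [h.rm hm] at hy hy'
  have aR : ∀ w, ¬ Rm G c a w := nomate h.ta.2
  have bR : ∀ w, ¬ Rm G c b w := nomate h.tb.2
  have ab : a ≠ b := h.h1.n3.yz
  have zz := h.zab
  have p1 : a ≠ za := (ne_col h.ha.cz h.ta.1).symm
  have p2 : a ≠ zb := (ne_col h.hb.cz h.ta.1).symm
  have p3 : b ≠ za := (ne_col h.ha.cz h.tb.1).symm
  have p4 : b ≠ zb := (ne_col h.hb.cz h.tb.1).symm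
  have ka : ∀ w, Rm G c za w → w ≠ s1 → w ≠ s2 → False := fun w hw k1 k2 =>
    (h.mza hm w hw).elim k1 k2
  have kb : ∀ w, Rm G c zb w → w ≠ s1 → w ≠ s2 → False := fun w hw k1 k2 =>
    (h.mzb hm w hw).elim k1 k2
  rcases hy with ⟨hy, y1, y3, y4, y5⟩ | ⟨y1, y2⟩ | ⟨y1, y2⟩ | ⟨y1, y2⟩ | ⟨y1, y2⟩ <;>
    rcases hy' with ⟨hz, z1, z3, z4, z5⟩ | ⟨z1, z2⟩ | ⟨z1, z2⟩ | ⟨z1, z2⟩ | ⟨z1, z2⟩ <;>
    first
      | exact rm_uniq (hm v) hy hz
      | (rw [y2, z2]; done)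
      | (exfalso; rw [y1] at hz; exact aR _ hz)
      | (exfalso; rw [z1] at hy; exact aR _ hy)
      | (exfalso; rw [y1] at hz; exact bR _ hz)
      | (exfalso; rw [z1] at hy; exact bR _ hy)
      | (exfalso; rw [y1] at hz; exact ka _ hz z4 z5)
      | (exfalso; rw [z1] at hy; exact ka _ hy y4 y5)
      | (exfalso; rw [y1] at hz; exact kb _ hz z4 z5)
      | (exfalso; rw [z1] at hy; exact kb _ hy y4 y5)
      | grind

/-- GSW: the swap of a square is neutral -/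
theorem Sqg.opt (h : Sqg G c s1 s2 a b v1 v2 za zb) (hG : G.IsRegularOfDegree 3)
    (hO : Opt G c j) : Opt G (flp c {s1, s2, a, b}) j := by
  have hm := hO.mu1
  have ab : a ≠ b := h.h1.n3.yz
  have ss : s1 ≠ s2 := h.ha.n3.xy
  have nad : ¬ G.Adj s1 s2 := fun hh => h.n12 ⟨hh, by rw [h.ha.cx, h.ha.cy]⟩
  have a1 : G.Adj s1 a := (h.h1.n3.nb a).2 (by simp)
  have b1 : G.Adj s1 b := (h.h1.n3.nb b).2 (by simp)
  have a2 : G.Adj s2 a := (h.h2.n3.nb a).2 (by simp)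
  have b2 : G.Adj s2 b := (h.h2.n3.nb b).2 (by simp)
  have nab' : ¬ G.Adj a b := fun hh => nomate h.ta.2 b ⟨hh, by rw [h.ta.1, h.tb.1]⟩
  have e : ({s1, s2, a, b} : Finset V) = [s1, s2, a, b].toFinset := by simp
  have nd : [s1, s2, a, b].Nodup := by simp [ss, a1.ne, b1.ne, a2.ne, b2.ne, ab]
  refine (ZERO V G hG c j hO).1 _ ?_ ?_ (h.ml hm)
  · rw [e, cost_list c _ nd]
    simp only [cl_cons, cl_nil, List.map_cons, List.map_nil, List.sum_cons, List.sum_nil,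
      (sv_tS hm h.h1).2, (sv_tS hm h.h2).2, h.ta.2, h.tb.2]
    rw [sf_nadj nad, sf_adj a1 (by rw [h.ta.1, h.ha.cx]; decide),
      sf_adj b1 (by rw [h.tb.1, h.ha.cx]; decide), sf_adj a2 (by rw [h.ta.1, h.ha.cy]; decide),
      sf_adj b2 (by rw [h.tb.1, h.ha.cy]; decide), sf_nadj nab']
    norm_num
  · rw [e, dd_list c _ nd]
    simp only [dl_cons, dl_nil, h.ta.1, h.tb.1, h.ha.cx, h.ha.cy]
    norm_num

/-- a vertex of type `A` other than the hubs stays of type `A` -/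
theorem Sqg.tA' (h : Sqg G c s1 s2 a b v1 v2 za zb) (hm : ∀ v, mu G c v ≤ 1) {n : V}
    (tn : tA G c n) (ha : n ≠ a) (hb : n ≠ b) : tA G (flp c {s1, s2, a, b}) n := by
  rw [tA_iff] at tn ⊢
  have e1 : n ≠ s1 := (ne_col h.ha.cx tn.1).symm
  have e2 : n ≠ s2 := (ne_col h.ha.cy tn.1).symm
  refine ⟨by rw [Sqg.col n e1 e2 ha hb]; exact tn.1, fun w hw => ?_⟩
  rw [h.rm hm] at hw
  rcases hw with ⟨hw, -⟩ | ⟨y1, -⟩ | ⟨y1, -⟩ | ⟨y1, -⟩ | ⟨y1, -⟩
  · exact tn.2 w hw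
  · exact ha y1
  · exact ne_col h.ha.cz tn.1 y1.symm
  · exact hb y1
  · exact ne_col h.hb.cz tn.1 y1.symm

/-- the type `Q` does not change -/
theorem Sqg.tQ' (h : Sqg G c s1 s2 a b v1 v2 za zb) (hm : ∀ v, mu G c v ≤ 1) {q q' : V}
    (cq : c q = true) (hr : Rm G c q q') :
    Rm G (flp c {s1, s2, a, b}) q q' ∧ flp c {s1, s2, a, b} q = true ∧
      flp c {s1, s2, a, b} q' = true := by
  have cq' : c q' = true := by rw [hr.2, cq]
  have e1 : q ≠ s1 := (ne_col h.ha.cx cq).symm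
  have e2 : q ≠ s2 := (ne_col h.ha.cy cq).symm
  have e3 : q' ≠ s1 := (ne_col h.ha.cx cq').symm
  have e4 : q' ≠ s2 := (ne_col h.ha.cy cq').symm
  have r1 : Rm G (flp c {s1, s2, a, b}) q q' := by
    rw [h.rm hm]
    exact Or.inl ⟨hr, e1, e2, e3, e4⟩
  have e5 : q ≠ a := by rintro rfl; exact nomate h.ta.2 q' hr
  have e6 : q ≠ b := by rintro rfl; exact nomate h.tb.2 q' hr
  have c1 : flp c {s1, s2, a, b} q = true := by rw [Sqg.col q e1 e2 e5 e6, cq]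
  exact ⟨r1, c1, by rw [r1.2, c1]⟩

/-- mates of colour `false` outside the square -/
theorem Sqg.tS' (h : Sqg G c s1 s2 a b v1 v2 za zb) (hm : ∀ v, mu G c v ≤ 1) {s m : V}
    (cs : c s = false) (hr : Rm G c s m) (k1 : s ≠ s1) (k2 : s ≠ s2) (k3 : s ≠ v1)
    (k4 : s ≠ v2) : Rm G (flp c {s1, s2, a, b}) s m ∧ flp c {s1, s2, a, b} s = false ∧
      flp c {s1, s2, a, b} m = false := by
  have cm : c m = false := by rw [hr.2, cs]
  have e3 : m ≠ s1 := by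
    rintro rfl
    exact k3 (mate_eq hm h.h1 hr.symm)
  have e4 : m ≠ s2 := by
    rintro rfl
    exact k4 (mate_eq hm h.h2 hr.symm)
  have r1 : Rm G (flp c {s1, s2, a, b}) s m := by
    rw [h.rm hm]
    exact Or.inl ⟨hr, k1, k2, e3, e4⟩
  have c1 : flp c {s1, s2, a, b} s = false := by
    rw [Sqg.col s k1 k2 (ne_col cs h.ta.1) (ne_col cs h.tb.1), cs]
  exact ⟨r1, c1, by rw [r1.2, c1]⟩

/-- the third neighbour `za` of type `B` becomes a mate of `a` -/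
theorem Sqg.za' (h : Sqg G c s1 s2 a b v1 v2 za zb) (hm : ∀ v, mu G c v ≤ 1) :
    Rm G (flp c {s1, s2, a, b}) za a ∧ flp c {s1, s2, a, b} za = false ∧
      flp c {s1, s2, a, b} a = false := by
  have r1 : Rm G (flp c {s1, s2, a, b}) za a := by
    rw [h.rm hm]
    simp
  have c1 : flp c {s1, s2, a, b} za = false := by
    rw [Sqg.col za h.ha.n3.xz.symm h.ha.n3.yz.symm (ne_col h.ha.cz h.ta.1)
      (ne_col h.ha.cz h.tb.1), h.ha.cz]
  exact ⟨r1, c1, by rw [r1.2, c1]⟩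

/-- the third neighbour of a hub is not adjacent to the other hub -/
theorem Sqg.nzb (h : Sqg G c s1 s2 a b v1 v2 za zb) : ¬ G.Adj za b := by
  intro hh
  rcases (h.hb.n3.nb za).1 hh.symm with e | e | e
  · exact h.ha.n3.xz e.symm
  · exact h.ha.n3.yz e.symm
  · exact h.zab e

/-- an `A`-vertex adjacent to the vertex `s1` or `s2` is a hub -/
theorem Sqg.hub1 (h : Sqg G c s1 s2 a b v1 v2 za zb) {n : V} (cn : c n = true)
    (hn : G.Adj n s1) : n = a ∨ n = b := by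
  rcases (h.h1.n3.nb n).1 hn.symm with e | e | e
  · exact absurd e (ne_col h.h1.cm cn).symm
  · exact Or.inl e
  · exact Or.inr e

/-- GR4 -/
theorem gr4 (hG : G.IsRegularOfDegree 3) (hO : Opt G c j) (hN : NH G j)
    (h : Sqg G c s1 s2 a b v1 v2 za zb) {n x y : V} (tn : tA G c n)
    (na : n ≠ a) (nw : G.Adj n za) (tx : tS G c x) (ty : tS G c y) (nx : G.Adj n x)
    (ny : G.Adj n y) (xy : x ≠ y) (x1 : x ≠ v1) (x2 : x ≠ v2) (y1 : y ≠ v1) (y2 : y ≠ v2)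
    (xz : x ≠ za) (yz : y ≠ za) : Rm G c x y := by
  have hm := hO.mu1
  have nb : n ≠ b := by
    rintro rfl
    exact h.nzb nw.symm
  have kx1 : x ≠ s1 := by
    rintro rfl
    rcases h.hub1 tn.1 nx with e | e
    · exact na e
    · exact nb e
  have kx2 : x ≠ s2 := by
    rintro rfl
    rcases h.swap.hub1 tn.1 nx with e | e
    · exact na e
    · exact nb e
  have ky1 : y ≠ s1 := by
    rintro rfl
    rcases h.hub1 tn.1 ny with e | e
    · exact na e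
    · exact nb e
  have ky2 : y ≠ s2 := by
    rintro rfl
    rcases h.swap.hub1 tn.1 ny with e | e
    · exact na e
    · exact nb e
  obtain ⟨mx, rx⟩ := exists_mate tx.2
  obtain ⟨my, ry⟩ := exists_mate ty.2
  obtain ⟨rx', cx', -⟩ := h.tS' hm tx.1 rx kx1 kx2 x1 x2
  obtain ⟨ry', cy', -⟩ := h.tS' hm ty.1 ry ky1 ky2 y1 y2
  obtain ⟨rz', cz', ca'⟩ := h.za' hm
  have tn' := h.tA' hm tn na nb
  have hO' := h.opt hG hO
  have hm' := h.ml hm
  obtain ⟨n3⟩ : Nonempty (N3 G n x y za) := by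
    obtain ⟨z, hz⟩ := n3_of2 hG nx ny xy
    rcases (hz.nb za).1 nw with e | e | e
    · exact absurd e.symm xz
    · exact absurd e.symm yz
    · exact ⟨e ▸ hz⟩
  have av : Av G (flp c {s1, s2, a, b}) n x y za := ⟨tn'.1, cx', cy', cz', n3⟩
  rcases hN.use hG hO' av tn' ⟨cx', mu_of_rm hm' rx'⟩ ⟨cy', mu_of_rm hm' ry'⟩
    ⟨cz', mu_of_rm hm' rz'⟩ with k | k | k
  · have e := rm_uniq (hm' x) k rx'
    rw [e]
    exact rx
  · exfalso
    have e := rm_uniq (hm' za) k.symm rz'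
    exact ne_col tx.1 h.ta.1 e
  · exfalso
    have e := rm_uniq (hm' za) k.symm rz'
    exact ne_col ty.1 h.ta.1 e

/-- GR3 -/
theorem gr3 (hG : G.IsRegularOfDegree 3) (hj : 1 ≤ j) (hO : Opt G c j) (hN : NH G j)
    (h : Sqg G c s1 s2 a b v1 v2 za zb) {n1 n2 f : V} (nz : N3 G za a n1 n2)
    (tz : tB G c za) (t1 : tA G c n1) (t2 : tA G c n2) (hf : f ∈ Fr G c) (f1 : f ≠ v1)
    (f2 : f ≠ v2) (fn : G.Adj f n1) : G.Adj f n2 := by
  have hm := hO.mu1
  have az1 : G.Adj za n1 := (nz.nb n1).2 (by simp)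
  have az2 : G.Adj za n2 := (nz.nb n2).2 (by simp)
  have n1a : n1 ≠ a := nz.xy.symm
  have n2a : n2 ≠ a := nz.xz.symm
  have n1b : n1 ≠ b := by rintro rfl; exact h.nzb az1
  have n2b : n2 ≠ b := by rintro rfl; exact h.nzb az2
  obtain ⟨m, e, sf, te, _⟩ := fr_sv' hG hm hf fn.symm t1.1
  have fs1 : f ≠ s1 := by
    rintro rfl
    rcases h.hub1 t1.1 fn.symm with k | k
    · exact n1a k
    · exact n1b k
  have fs2 : f ≠ s2 := by
    rintro rfl
    rcases h.swap.hub1 t1.1 fn.symm with k | k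
    · exact n1a k
    · exact n1b k
  have ef : G.Adj f e := (sf.n3.nb e).2 (by simp)
  have fza : f ≠ za := by
    rintro rfl
    exact nomate tz.2 m (sv_rm sf)
  have ea : e ≠ a := by
    rintro rfl
    rcases (h.ha.n3.nb f).1 ef.symm with k | k | k
    · exact fs1 k
    · exact fs2 k
    · exact fza k
  have eb : e ≠ b := by
    rintro rfl
    rcases (h.hb.n3.nb f).1 ef.symm with k | k | k
    · exact fs1 k
    · exact fs2 k
    · rcases h.kb with kb | ⟨kb, -⟩ | ⟨kb, -⟩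
      · rw [← k] at kb
        exact nomate kb.2 m (sv_rm sf)
      · exact f1 (k.trans kb)
      · exact f2 (k.trans kb)
  obtain ⟨rf', cf', cm'⟩ := h.tS' hm sf.cs (sv_rm sf) fs1 fs2 f1 f2
  obtain ⟨rz', cz', ca'⟩ := h.za' hm
  have t1' := h.tA' hm t1 n1a n1b
  have t2' := h.tA' hm t2 n2a n2b
  have te' := h.tA' hm te ea eb
  have hO' := h.opt hG hO
  have sv1 : Sv G (flp c {s1, s2, a, b}) za a n1 n2 := ⟨cz', ca', t1'.1, t2'.1, nz⟩
  have sv2 : Sv G (flp c {s1, s2, a, b}) f m n1 e := ⟨cf', cm', t1'.1, te'.1, sf.n3⟩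
  have hn : ¬ Rm G (flp c {s1, s2, a, b}) za f := by
    intro hr
    have k := rm_uniq (h.ml hm za) rz' hr
    exact ne_col sf.cs h.ta.1 k.symm
  have k := same_b hG hj hO' hN t1' sv1 sv2 t2' te' hn fza.symm
  rw [k]
  exact ef

end swap

end Pool.Agent.Helper79.MC
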