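import Mathlib
import Pool.Agent.Helper79.MC.G2
import Pool.Agent.Helper91.MC.GK

/-!
MP_4042d8_co, section D, arbitrary simple cubic graphs: fact R5.
-/

set_option autoImplicit false
set_option linter.unusedSectionVars false
set_option linter.unusedSimpArgs false
set_option linter.unusedVariables false

namespace Pool.Agent.Helper79.MC

open Pool.Agent.Helper27.MC hiding Fr T1 ter
open Pool.Agent.Helper51.MC Pool.Agent.Helper88.MC Pool.Agent.Helper64.MC
open Pool.Agent.Helper91.MC Pool.Agent.Helper42.MC Pool.Agent.Helper96.MC Pool.Agent.Helper35.MC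
open Pool.Agent.Helper91.MC.GK

variable {V : Type} [Fintype V] [DecidableEq V] {G : SimpleGraph V} [DecidableRel G.Adj]
  {c : V → Bool} {j : ℕ}

/-- a vertex `t1` of a `K`-hub is no vertex of a square -/
theorem khb_ne {s1 s2 a b v1 v2 za zb f v x y t1 t2 r1 r2 p1 p2 : V}
    (h : Sqg G c s1 s2 a b v1 v2 za zb) (K : Khb G c f v x y t1 t2 r1 r2 p1 p2) :
    t1 ≠ s1 ∧ t1 ≠ s2 := by
  have key : ∀ {s1 v1 : V}, Sv G c s1 v1 a b → t1 ≠ s1 := by
    rintro s1 v1 hs rfl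
    rcases (hs.n3.nb r1).1 ((K.h1.n3.nb r1).2 (by simp)) with e | e | e
    · exact ne_col hs.cm K.h1.cb e.symm
    · rw [e] at K
      exact nomate h.ta.2 _ K.q1
    · rw [e] at K
      exact nomate h.tb.2 _ K.q1
  exact ⟨key h.h1, key h.h2⟩

/-- GR5 -/
theorem gr5 (hG : G.IsRegularOfDegree 3) (hj : 1 ≤ j) (hO : Opt G c j)
    {s1 s2 a b v1 v2 za zb f v x y t1 t2 r1 r2 p1 p2 n2 : V}
    (h : Sqg G c s1 s2 a b v1 v2 za zb) (K : Khb G c f v x y t1 t2 r1 r2 p1 p2)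
    (nz : N3 G za a p1 n2) (tz : tB G c za) (t2' : tA G c n2) (f1 : f ≠ v1) (f2 : f ≠ v2) :
    G.Adj f n2 := by
  have hm := hO.mu1
  have k1 := khb_ne h K
  have k2 := khb_ne h K.symm
  have rfv : Rm G c f v := sv_rm K.hu
  have rtt : Rm G c t1 t2 := sv_rm K.h1
  have afx : G.Adj f x := (K.hu.n3.nb x).2 (by simp)
  have afy : G.Adj f y := (K.hu.n3.nb y).2 (by simp)
  have az1 : G.Adj za p1 := (nz.nb p1).2 (by simp)
  have az2 : G.Adj za n2 := (nz.nb n2).2 (by simp)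
  have cp1 : c p1 = true := by rw [K.q1.2, K.h1.cb]
  have n2a : n2 ≠ a := nz.xz.symm
  have n2b : n2 ≠ b := by rintro rfl; exact h.nzb az2
  have fza : f ≠ za := by rintro rfl; exact nomate tz.2 _ rfv
  have fs1 : f ≠ s1 := by
    rintro rfl
    have hx : G.Adj x s2 := by
      rcases (h.h1.n3.nb x).1 afx with e | e | e
      · exact absurd e (ne_col h.h1.cm K.ta.1).symm
      · rw [e]; exact (h.ha.n3.nb s2).2 (by simp)
      · rw [e]; exact (h.hb.n3.nb s2).2 (by simp)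
    rcases (K.ha.n3.nb s2).1 hx with e | e | e
    · exact h.ha.n3.xy e.symm
    · exact k1.2 e.symm
    · exact k2.2 e.symm
  have fs2 : f ≠ s2 := by
    rintro rfl
    have hx : G.Adj x s1 := by
      rcases (h.h2.n3.nb x).1 afx with e | e | e
      · exact absurd e (ne_col h.h2.cm K.ta.1).symm
      · rw [e]; exact (h.ha.n3.nb s1).2 (by simp)
      · rw [e]; exact (h.hb.n3.nb s1).2 (by simp)
    rcases (K.ha.n3.nb s1).1 hx with e | e | e
    · exact h.ha.n3.xy e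
    · exact k1.1 e.symm
    · exact k2.1 e.symm
  have hub : ∀ {n : V}, G.Adj f n → n ≠ a ∧ n ≠ b := by
    intro n hn
    constructor
    · rintro rfl
      rcases (h.ha.n3.nb f).1 hn.symm with k | k | k
      · exact fs1 k
      · exact fs2 k
      · exact fza k
    · rintro rfl
      rcases (h.hb.n3.nb f).1 hn.symm with k | k | k
      · exact fs1 k
      · exact fs2 k
      · rcases h.kb with kb | ⟨kb, -⟩ | ⟨kb, -⟩
        · rw [← k] at kb
          exact nomate kb.2 _ rfv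
        · exact f1 (k.trans kb)
        · exact f2 (k.trans kb)
  obtain ⟨rf', cf', cv'⟩ := h.tS' hm K.hu.cs rfv fs1 fs2 f1 f2
  have tv1 : t1 ≠ v1 := by
    rintro rfl
    exact k2.1 (rm_uniq (hm t1) rtt (sv_rm h.h1).symm)
  have tv2 : t1 ≠ v2 := by
    rintro rfl
    exact k2.2 (rm_uniq (hm t1) rtt (sv_rm h.h2).symm)
  obtain ⟨rt', ct1', ct2'⟩ := h.tS' hm K.h1.cs rtt k1.1 k1.2 tv1 tv2
  obtain ⟨rz', cz', ca'⟩ := h.za' hm
  obtain ⟨rq1, cr1, cq1⟩ := h.tQ' hm K.h1.cb K.q1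
  obtain ⟨rq2, cr2, cq2⟩ := h.tQ' hm K.h2.cb K.q2
  have tx' := h.tA' hm K.ta (hub afx).1 (hub afx).2
  have ty' := h.tA' hm K.tb (hub afy).1 (hub afy).2
  have tn' := h.tA' hm t2' n2a n2b
  have hO' := h.opt hG hO
  have hm' := h.ml hm
  have r1za : r1 ≠ za := (ne_col h.ha.cz K.h1.cb).symm
  obtain ⟨z, hz⟩ := n3_of2 hG K.q1.symm.1 az1.symm r1za
  have apz : G.Adj p1 z := (hz.nb z).2 (by simp)
  have cz : c z = false := by
    cases hc : c z
    · rfl
    · exact absurd (rm_uniq (hm p1) K.q1.symm ⟨apz, by rw [hc, cp1]⟩) hz.xz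
  have p1a : p1 ≠ a := nz.xy.symm
  have p1b : p1 ≠ b := by rintro rfl; exact h.nzb az1
  have zs1 : z ≠ s1 := by
    rintro rfl
    rcases h.hub1 cp1 apz with e | e
    · exact p1a e
    · exact p1b e
  have zs2 : z ≠ s2 := by
    rintro rfl
    rcases h.swap.hub1 cp1 apz with e | e
    · exact p1a e
    · exact p1b e
  have cz1 : flp c {s1, s2, a, b} z = false := by
    rw [Sqg.col z zs1 zs2 (ne_col cz h.ta.1) (ne_col cz h.tb.1), cz]
  have tz1 : tB G (flp c {s1, s2, a, b}) z := by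
    rcases tB_or_tS hm' cz1 with e | e
    · exact e
    · exfalso
      have e1 := F1 hG hj hO' (q := p1) ⟨cq1, mu_of_rm hm' rq1.symm⟩
        ⟨cz', mu_of_rm hm' rz'⟩ e az1.symm apz hz.yz
      have e2 := rm_uniq (hm' za) rz' e1
      exact ne_col cz h.ta.1 e2.symm
  have K' : Khb G (flp c {s1, s2, a, b}) f v x y t1 t2 r1 r2 p1 p2 := by
    refine ⟨⟨cf', cv', tx'.1, ty'.1, K.hu.n3⟩, tx', ty', ⟨tx'.1, cf', ct1', ct2', K.ha.n3⟩,
      ⟨ct1', ct2', tx'.1, cr1, K.h1.n3⟩, ⟨ct2', ct1', tx'.1, cr2, K.h2.n3⟩, rq1, rq2⟩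
  have e := gk1 hG hj hO' K' hz tz1 (g := za) (m := a) (e := n2) ⟨cz', ca', cq1, tn'.1, nz⟩ tn'
    (by rintro rfl; exact nomate tz.2 _ rfv.symm) (by rintro rfl; exact nomate tz.2 _ rtt.symm)
  rw [e]
  exact afy

/-- `NH` for `2 ≤ j` -/
theorem nh_of (hF2 : Pool.Agent.Helper64.MC.ST_F2) {V : Type} [Fintype V] [DecidableEq V]
    (G : SimpleGraph V) [DecidableRel G.Adj] (hG : G.IsRegularOfDegree 3) {j : ℕ} (hj : 2 ≤ j) :
    NH G j := fun c hO a s1 s2 s3 v1 v2 v3 p1 p2 p3 =>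
  hF2 V G hG c j hj hO a s1 s2 s3 v1 v2 v3 p1 p2 p3

end Pool.Agent.Helper79.MC
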