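import Mathlib
import Pool.Agent.Helper33.MC.StG

/-!
MP_4042d8_co, section D, part II: accounting of doubled weights.
-/

set_option autoImplicit false
set_option linter.unusedSectionVars false
set_option linter.unusedSimpArgs false
set_option linter.unusedVariables false

namespace Pool.Agent.Helper79.MC

open Pool.Agent.Helper27.MC hiding Fr T1 ter
open Pool.Agent.Helper51.MC Pool.Agent.Helper88.MC Pool.Agent.Helper64.MC
open Pool.Agent.Helper33.MC
open Pool.Agent.Helper91.MC.GK (Khb)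
open Pool.Agent.Helper91.MC (mem_Fr mem_T1 sv_Fr sv_T1 sv_Dd sv_ex sv_rm sv_swap sv_tS sv_tSm
  tA_or_tQ tB_or_tS tA_not_tQ av_ex)

section defs

variable {V : Type} [Fintype V] [DecidableEq V] (G : SimpleGraph V) [DecidableRel G.Adj]

/-- `(f,x)` is the `K`-slot of the `T1`-vertex `t` -/
def KP (c : V → Bool) (t f x : V) : Prop :=
  ∃ v y t' q q' k k', Khb G c f v x y t t' q q' k k'

/-- weighted covering: `A` (pairs) and `B` (branches) are covered with total weight at most `n` -/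
def Cw (c : V → Bool) (n : ℕ) (A : V → V → Prop) (B : V → Prop) : Prop :=
  ∃ (P : Finset (V × V)) (Q : Finset V), 2 * P.card + Q.card ≤ n ∧
    (∀ f x, A f x → (f, x) ∈ P) ∧ ∀ t, B t → t ∈ Q ∨ ∃ f x, KP G c t f x ∧ (f, x) ∈ P

end defs

variable {V : Type} [Fintype V] [DecidableEq V] {G : SimpleGraph V} [DecidableRel G.Adj]
  {c : V → Bool} {j : ℕ} {L : V → V → Prop} {H H' H1 : Finset V}

/-! ### `K`-slots -/

theorem khb_tQ (hm : ∀ v, mu G c v ≤ 1) {u v a b t1 t2 r1 r2 p1 p2 : V}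
    (K : Khb G c u v a b t1 t2 r1 r2 p1 p2) : tQ G c r1 := ⟨K.h1.cb, mu_of_rm hm K.q1⟩

theorem khb_T1 (hm : ∀ v, mu G c v ≤ 1) {u v a b t1 t2 r1 r2 p1 p2 : V}
    (K : Khb G c u v a b t1 t2 r1 r2 p1 p2) : t1 ∈ T1 G c :=
  (sv_T1 hm K.h1).2 (Or.inl ⟨K.ta, khb_tQ hm K⟩)

theorem khb_fr (hm : ∀ v, mu G c v ≤ 1) {u v a b t1 t2 r1 r2 p1 p2 : V}
    (K : Khb G c u v a b t1 t2 r1 r2 p1 p2) : u ∈ Fr G c := (sv_Fr hm K.hu).2 ⟨K.ta, K.tb⟩

theorem KP.uniq (hm : ∀ v, mu G c v ≤ 1) {t f x f' x' : V} (h : KP G c t f x)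
    (h' : KP G c t f' x') : f = f' ∧ x = x' := by
  obtain ⟨v, y, t1, q, q1, k, k1, K⟩ := h
  obtain ⟨v', y', t1', q', q1', k', k1', K'⟩ := h'
  have e1 : t1 = t1' := rm_uniq (hm t) (sv_rm K.h1) (sv_rm K'.h1)
  have e2 : x = x' := by
    rcases (K.h1.n3.nb x').1 ((K'.h1.n3.nb x').2 (by simp)) with e | e | e
    · have h1 := K'.h1.ca
      rw [e, K.h1.cm] at h1
      cases h1
    · exact e.symm
    · exfalso
      have h1 := khb_tQ hm K
      rw [← e] at h1
      exact tA_not_tQ K'.ta h1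
  subst e2
  subst e1
  refine ⟨?_, rfl⟩
  rcases (K.ha.n3.nb f').1 ((K'.ha.n3.nb f').2 (by simp)) with e | e | e
  · exact e.symm
  · exact absurd e K'.ha.n3.xy
  · exact absurd e K'.ha.n3.xz

/-- a `K`-slot is not a good slot -/
theorem KP.not_good (hm : ∀ v, mu G c v ≤ 1) {t f x : V} (h : KP G c t f x)
    (hg : GSG G c L H f x) : False := by
  obtain ⟨v, y, t', q, q', k, k', K⟩ := h
  obtain ⟨hl, hk⟩ := hg
  have a1 : G.Adj x t := (K.ha.n3.nb t).2 (by simp)
  have a2 : G.Adj x t' := (K.ha.n3.nb t').2 (by simp)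
  have n1 : t ≠ f := K.ha.n3.xy.symm
  have n2 : t' ≠ f := K.ha.n3.xz.symm
  have n3 : t ≠ t' := K.ha.n3.yz
  have hx := hl.2.2.2.2
  have r1 : Rm G c t t' := sv_rm K.h1
  rcases hk with h | ⟨s, h1, h2, h3, h4⟩ | ⟨g, h1, h2, _, h3, _⟩
  · rcases h t a1 n1 t' r1 with e | e
    · exact n2 e
    · exact hx.2 t' a2 e
  · by_cases e : s = t
    · subst e
      rcases h4 t' a2 n2 n3.symm s r1.symm with e | e
      · exact n1 e
      · exact hx.2 s a1 e
    · rcases h4 t a1 n1 (fun e' => e e'.symm) t' r1 with e | e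
      · exact n2 e
      · exact hx.2 t' a2 e
  · rcases (K.ha.n3.nb g).1 h1 with e | e | e
    · exact h2 e
    · subst e
      have := (mem_T1.1 (khb_T1 hm K)).2
      have h4 := (mem_Fr.1 h3.1).2
      omega
    · subst e
      have := (mem_T1.1 (khb_T1 hm K.symm)).2
      have h4 := (mem_Fr.1 h3.1).2
      omega

theorem GB.kp {t : V} (h : GB G c H t) : ∃ f x, KP G c t f x ∧ LS G c H f x := by
  obtain ⟨u, v, a, b, t', q, q', k, k', K, h1, -⟩ := h
  exact ⟨u, a, ⟨v, b, t', q, q', k, k', K⟩, h1⟩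

theorem mem_goodG {p : V × V} : p ∈ goodG G c L H ↔ GSG G c L H p.1 p.2 := by
  classical
  unfold goodG
  simp only [Finset.mem_filter, Finset.mem_univ, true_and]

theorem mem_goodB {t : V} : t ∈ goodB G c H ↔ GB G c H t := by
  classical
  unfold goodB
  simp only [Finset.mem_filter, Finset.mem_univ, true_and]

/-! ### the calculus of weighted coverings -/

theorem Cw.mono {n n' : ℕ} {A A' : V → V → Prop} {B B' : V → Prop} (h : Cw G c n A B)
    (hn : n ≤ n') (hA : ∀ f x, A' f x → A f x) (hB : ∀ t, B' t → B t) : Cw G c n' A' B' := by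
  obtain ⟨P, Q, h1, h2, h3⟩ := h
  exact ⟨P, Q, h1.trans hn, fun f x k => h2 f x (hA f x k), fun t k => h3 t (hB t k)⟩

theorem Cw.or {n n' : ℕ} {A A' : V → V → Prop} {B B' : V → Prop} (h : Cw G c n A B)
    (h' : Cw G c n' A' B') :
    Cw G c (n + n') (fun f x => A f x ∨ A' f x) (fun t => B t ∨ B' t) := by
  obtain ⟨P, Q, h1, h2, h3⟩ := h
  obtain ⟨P', Q', h1', h2', h3'⟩ := h'
  refine ⟨P ∪ P', Q ∪ Q', ?_, ?_, ?_⟩
  · have e1 := Finset.card_union_le P P'
    have e2 := Finset.card_union_le Q Q'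
    omega
  · rintro f x (k | k)
    · exact Finset.mem_union_left _ (h2 f x k)
    · exact Finset.mem_union_right _ (h2' f x k)
  · rintro t (k | k)
    · rcases h3 t k with e | ⟨f, x, e1, e2⟩
      · exact Or.inl (Finset.mem_union_left _ e)
      · exact Or.inr ⟨f, x, e1, Finset.mem_union_left _ e2⟩
    · rcases h3' t k with e | ⟨f, x, e1, e2⟩
      · exact Or.inl (Finset.mem_union_right _ e)
      · exact Or.inr ⟨f, x, e1, Finset.mem_union_right _ e2⟩

theorem Cw.none {A : V → V → Prop} {B : V → Prop} (h1 : ∀ f x, ¬ A f x) (h2 : ∀ t, ¬ B t) :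
    Cw G c 0 A B := ⟨∅, ∅, by simp, fun f x h => (h1 f x h).elim, fun t h => (h2 t h).elim⟩

/-- one pair (a slot or a `K`-slot with its branches) -/
theorem Cw.pair (f x : V) :
    Cw G c 2 (fun f' x' => f' = f ∧ x' = x) (fun t => KP G c t f x) := by
  refine ⟨{(f, x)}, ∅, by simp, ?_, fun t h => Or.inr ⟨f, x, h, by simp⟩⟩
  rintro f' x' ⟨rfl, rfl⟩
  simp

/-- one branch -/
theorem Cw.br (t : V) : Cw G c 1 (fun _ _ => False) (fun t' => t' = t) :=
  ⟨∅, {t}, by simp, fun _ _ h => h.elim, fun t' h => Or.inl (by simp [h])⟩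

/-- at most one pair -/
theorem Cw.sub {A : V → V → Prop} {B : V → Prop}
    (h : ∀ f x f' x', (A f x ∨ ∃ t, B t ∧ KP G c t f x) → (A f' x' ∨ ∃ t, B t ∧ KP G c t f' x') →
      f = f' ∧ x = x') (hB : ∀ t, B t → ∃ f x, KP G c t f x) : Cw G c 2 A B := by
  by_cases he : ∃ f x, A f x ∨ ∃ t, B t ∧ KP G c t f x
  · obtain ⟨f, x, hx⟩ := he
    refine (Cw.pair f x).mono le_rfl ?_ ?_
    · intro f' x' h1
      obtain ⟨e1, e2⟩ := h f' x' f x (Or.inl h1) hx
      exact ⟨e1, e2⟩
    · intro t ht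
      obtain ⟨f', x', hk⟩ := hB t ht
      obtain ⟨e1, e2⟩ := h f' x' f x (Or.inr ⟨t, ht, hk⟩) hx
      rw [← e1, ← e2]
      exact hk
  · refine (Cw.none ?_ ?_).mono (by norm_num) (fun _ _ h => h) (fun _ h => h)
    · intro f x h1
      exact he ⟨f, x, Or.inl h1⟩
    · intro t ht
      obtain ⟨f, x, hk⟩ := hB t ht
      exact he ⟨f, x, Or.inr ⟨t, ht, hk⟩⟩

/-- at most one branch -/
theorem Cw.subB {B : V → Prop} (h : ∀ t t', B t → B t' → t = t') :
    Cw G c 1 (fun _ _ => False) B := by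
  by_cases he : ∃ t, B t
  · obtain ⟨t, ht⟩ := he
    exact (Cw.br t).mono le_rfl (fun _ _ h => h) (fun t' ht' => h t' t ht' ht)
  · push Not at he
    exact (Cw.none (fun _ _ h => h) he).mono (by norm_num) (fun _ _ h => h) (fun _ h => h)

/-- the final step -/
theorem Cw.card (hm : ∀ v, mu G c v ≤ 1) {n : ℕ}
    (h : Cw G c n (fun f x => GSG G c L H f x ∧ ¬ GSG G c L H' f x)
      (fun t => GB G c H t ∧ ¬ GB G c H' t)) :
    2 * (goodG G c L H \ goodG G c L H').card + (goodB G c H \ goodB G c H').card ≤ n := by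
  classical
  obtain ⟨P, Q, h1, h2, h3⟩ := h
  set PG := P.filter (fun p => GSG G c L H p.1 p.2) with hPG
  set PK := P.filter (fun p => ¬ GSG G c L H p.1 p.2) with hPK
  have e0 : PG.card + PK.card = P.card :=
    Finset.card_filter_add_card_filter_not (s := P) (fun p => GSG G c L H p.1 p.2)
  have e1 : goodG G c L H \ goodG G c L H' ⊆ PG := by
    intro p hp
    rw [Finset.mem_sdiff, mem_goodG, mem_goodG] at hp
    rw [hPG, Finset.mem_filter]
    exact ⟨h2 p.1 p.2 hp, hp.1⟩
  have e2 : goodB G c H \ goodB G c H' ⊆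
      Q ∪ PK.biUnion (fun p => Finset.univ.filter (fun t => KP G c t p.1 p.2)) := by
    intro t ht
    rw [Finset.mem_sdiff, mem_goodB, mem_goodB] at ht
    rw [Finset.mem_union, Finset.mem_biUnion]
    rcases h3 t ht with e | ⟨f, x, k1, k2⟩
    · exact Or.inl e
    · right
      refine ⟨(f, x), ?_, ?_⟩
      · rw [hPK, Finset.mem_filter]
        exact ⟨k2, fun hg => k1.not_good hm hg⟩
      · rw [Finset.mem_filter]
        exact ⟨Finset.mem_univ _, k1⟩
  have e3 : (PK.biUnion (fun p => Finset.univ.filter (fun t => KP G c t p.1 p.2))).card ≤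
      PK.card * 2 := by
    refine Finset.card_biUnion_le_card_mul _ _ _ fun p _ => ?_
    by_cases he : ∃ t, KP G c t p.1 p.2
    · obtain ⟨t, v, y, t', q, q', k, k', K⟩ := he
      refine (Finset.card_le_card (t := {t, t'}) ?_).trans Finset.card_le_two
      intro s hs
      rw [Finset.mem_filter] at hs
      obtain ⟨-, v1, y1, t1, q1, q1', k1, k1', K1⟩ := hs
      rw [Finset.mem_insert, Finset.mem_singleton]
      rcases (K.ha.n3.nb s).1 ((K1.ha.n3.nb s).2 (by simp)) with e | e | e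
      · exact absurd e K1.ha.n3.xy.symm
      · exact Or.inl e
      · exact Or.inr e
    · push Not at he
      rw [Finset.filter_false_of_mem (fun t _ => he t)]
      simp
  have e4 := Finset.card_le_card e1
  have e5 := Finset.card_le_card e2
  have e6 := Finset.card_union_le Q
    (PK.biUnion (fun p => Finset.univ.filter (fun t => KP G c t p.1 p.2)))
  omega

/-- the slots of one vertex: weight at most 4 -/
theorem Cw.fst (hG : G.IsRegularOfDegree 3) (hm : ∀ v, mu G c v ≤ 1) (H : Finset V) (f : V) :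
    Cw G c 4 (fun f' x => f' = f ∧ LS G c H f' x) (fun t => ∃ x, KP G c t f x ∧ LS G c H f x) := by
  by_cases hf : f ∈ Fr G c
  · have hfS := (mem_Fr.1 hf).1
    obtain ⟨m, a, b, _, _, hab, nb, cm, ca, cb⟩ := (NB V G hG c f).1 hfS.2
    rw [hfS.1] at ca cb cm
    refine ⟨{(f, a), (f, b)}, ∅, ?_, ?_, ?_⟩
    · have := Finset.card_le_two (a := (f, a)) (b := (f, b))
      simpa using (by omega : 2 * ({(f, a), (f, b)} : Finset (V × V)).card ≤ 4)
    · rintro f' x ⟨rfl, hl⟩
      rcases (nb x).1 hl.2.2.1 with e | e | e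
      · have := hl.2.1.1
        rw [e, cm] at this
        cases this
      · simp [e]
      · simp [e]
    · rintro t ⟨x, hk, hl⟩
      refine Or.inr ⟨f, x, hk, ?_⟩
      rcases (nb x).1 hl.2.2.1 with e | e | e
      · have := hl.2.1.1
        rw [e, cm] at this
        cases this
      · simp [e]
      · simp [e]
  · refine (Cw.none ?_ ?_).mono (by norm_num) (fun _ _ h => h) (fun _ h => h)
    · rintro f' x ⟨rfl, hl⟩
      exact hf hl.1
    · rintro t ⟨x, -, hl⟩
      exact hf hl.1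

/-! ### losses of several steps -/

theorem LossG.comp {m m' n n' : ℕ} (h : LossG G c L H H1 m n) (h' : LossG G c L H1 H' m' n') :
    LossG G c L H H' (m + m') (n + n') := by
  have key : ∀ {α : Type} [DecidableEq α] (A B C : Finset α),
      (A \ C).card ≤ (A \ B).card + (B \ C).card := by
    intro α _ A B C
    refine (Finset.card_le_card ?_).trans (Finset.card_union_le (A \ B) (B \ C))
    intro x hx
    rw [Finset.mem_sdiff] at hx
    rw [Finset.mem_union, Finset.mem_sdiff, Finset.mem_sdiff]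
    by_cases hb : x ∈ B
    · exact Or.inr ⟨hb, hx.2⟩
    · exact Or.inl ⟨hx.1, hb⟩
  have k1 := key (goodG G c L H) (goodG G c L H1) (goodG G c L H')
  have k2 := key (goodB G c H) (goodB G c H1) (goodB G c H')
  have k3 := key (live G c H) (live G c H1) (live G c H')
  obtain ⟨h1, h2⟩ := h
  obtain ⟨h3, h4⟩ := h'
  constructor
  · omega
  · omega

theorem LossG.lam {m n : ℕ} (h : LossG G c L H H' m n) : Lam2 G c L H ≤ Lam2 G c L H' + m := by
  have key : ∀ {α : Type} [DecidableEq α] (A B : Finset α), A.card ≤ B.card + (A \ B).card := by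
    intro α _ A B
    have := Finset.card_le_card (s := A) (t := B ∪ (A \ B)) (by
      intro x hx
      rw [Finset.mem_union, Finset.mem_sdiff]
      by_cases hb : x ∈ B
      · exact Or.inl hb
      · exact Or.inr ⟨hx, hb⟩)
    exact this.trans (Finset.card_union_le _ _)
  have k1 := key (goodG G c L H) (goodG G c L H')
  have k2 := key (goodB G c H) (goodB G c H')
  have := h.1
  unfold Lam2
  omega

end Pool.Agent.Helper79.MC
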