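import Mathlib
import Pool.Agent.Helper79.MC.Acc
import Pool.Agent.Helper33.MC.GLoss
import Pool.Agent.Helper6.MC.LK

/-!
MP_4042d8_co, section D, part II: what the operation `U4(t)` kills.
-/

set_option autoImplicit false
set_option linter.unusedSectionVars false
set_option linter.unusedSimpArgs false
set_option linter.unusedVariables false

namespace Pool.Agent.Helper79.MC

open Pool.Agent.Helper27.MC hiding Fr T1 ter
open Pool.Agent.Helper51.MC Pool.Agent.Helper88.MC Pool.Agent.Helper64.MC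
open Pool.Agent.Helper33.MC
open Pool.Agent.Helper91.MC.GK (Khb)
open Pool.Agent.Helper91.MC (mem_Fr mem_T1 mem_Dd sv_Fr sv_T1 sv_Dd sv_ex sv_rm sv_swap sv_tS
  tA_or_tQ tB_or_tS tA_not_tQ av_ex)
open Pool.Agent.Helper96.MC (Td Apx Lx Exm Lp Lpp Tp)
open Pool.Agent.Helper6.MC (Brn gb_iff lkV t1_A)

section defs

variable {V : Type} [Fintype V] [DecidableEq V] (G : SimpleGraph V) [DecidableRel G.Adj]

/-- `s` is a source of the free vertex `f` -/
def Sr (c : V → Bool) (L : V → V → Prop) (f s : V) : Prop :=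
  Rm G c f s ∨ ∃ m, Rm G c f m ∧ L m s

end defs

variable {V : Type} [Fintype V] [DecidableEq V] {G : SimpleGraph V} [DecidableRel G.Adj]
  {c : V → Bool} {j : ℕ} {L : V → V → Prop} {H H' : Finset V}

theorem n3a {v x y z : V} (h : N3 G v x y z) : G.Adj v x := (h.nb x).2 (Or.inl rfl)

theorem n3b {v x y z : V} (h : N3 G v x y z) : G.Adj v y := (h.nb y).2 (Or.inr (Or.inl rfl))

theorem n3c {v x y z : V} (h : N3 G v x y z) : G.Adj v z := (h.nb z).2 (Or.inr (Or.inr rfl))

theorem mem_liv' {f : V} : f ∈ live G c H ↔ Live G c H f := by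
  unfold live
  simp

section facts

variable (F : FxG G c j L)
include F

theorem Sr.inj {f f' s : V} (hf : f ∈ Fr G c) (hf' : f' ∈ Fr G c) (h : Sr G c L f s)
    (h' : Sr G c L f' s) : f = f' := by
  rcases h with h | ⟨m, h1, h2⟩ <;> rcases h' with h' | ⟨m', h1', h2'⟩
  · exact rm_uniq (F.mu1 s) h.symm h'.symm
  · exact (src_mate F h2' h.symm hf).elim
  · exact (src_mate F h2 h'.symm hf').elim
  · have e := F.lx.inj m m' s h2 h2'
    subst e
    exact rm_uniq (F.mu1 m) h1.symm h1'.symm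

/-- two sources which are mates -/
theorem Sr.mates {f f' s s' : V} (hf : f ∈ Fr G c) (hf' : f' ∈ Fr G c) (hs : s ∈ T1 G c)
    (hs' : s' ∈ T1 G c) (hr : Rm G c s s') (h : Sr G c L f s) (h' : Sr G c L f' s') : f = f' := by
  rcases h with h | ⟨m, h1, h2⟩
  · exact (frG_not_T1 hf (rm_uniq (F.mu1 s) h.symm hr ▸ hs')).elim
  · rcases h' with h' | ⟨m', h1', h2'⟩
    · exact (frG_not_T1 hf' (rm_uniq (F.mu1 s') h'.symm hr.symm ▸ hs)).elim
    · have e := F.lm m m' s s' h2 h2' hr
      subst e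
      exact rm_uniq (F.mu1 m) h1.symm h1'.symm

/-- a source whose mate is free -/
theorem Sr.free {f s r : V} (hr : r ∈ Fr G c) (hm : Rm G c s r) (h : Sr G c L f s) : f = r := by
  rcases h with h | ⟨m, h1, h2⟩
  · exact rm_uniq (F.mu1 s) h.symm hm
  · exact (src_mate F h2 hm hr).elim

/-- a source whose mate is not free -/
theorem Sr.lt {f s r : V} (hf : f ∈ Fr G c) (hr : r ∉ Fr G c) (hm : Rm G c s r)
    (h : Sr G c L f s) : ∃ m, Rm G c f m ∧ L m s := by
  rcases h with h | h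
  · exact (hr (rm_uniq (F.mu1 s) h.symm hm ▸ hf)).elim
  · exact h

/-- data of the vertex `t` -/
theorem ov_T1 {t r a q : V} (h0 : Sv G c t r a q) (ta : tA G c a) (tq : tQ G c q) :
    t ∈ T1 G c := (sv_T1 F.mu1 h0).2 (Or.inl ⟨ta, tq⟩)

/-- live vertices lost by `U4` -/
theorem live_V {t r a q k : V} (h0 : Sv G c t r a q) (ta : tA G c a) (tq : tQ G c q)
    (hq : Rm G c q k) {f : V} (hf : Live G c H f) (hn : ¬ Clr G (H ∪ {t, a, q, k}) f) :
    f = r ∨ G.Adj f a := by
  have tk : tQ G c k := ⟨by rw [hq.2]; exact tq.1, mu_of_rm F.mu1 hq.symm⟩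
  have fS := frG_tS hf.1
  rcases not_clr' hf.2 hn with h | ⟨w, h, h1⟩
  · simp only [Finset.mem_insert, Finset.mem_singleton] at h
    rcases h with h | h | h | h
    · exact (frG_not_T1 hf.1 (h ▸ ov_T1 F h0 ta tq)).elim
    · exact (tSG_ne_tA fS ta h).elim
    · have := fS.1
      rw [h, tq.1] at this
      cases this
    · have := fS.1
      rw [h, tk.1] at this
      cases this
  · simp only [Finset.mem_insert, Finset.mem_singleton] at h1
    rcases h1 with h1 | h1 | h1 | h1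
    · subst h1
      exact Or.inl (rm_uniq (F.mu1 w) ⟨h.symm, by rw [fS.1, h0.cs]⟩ (sv_rm h0))
    · exact Or.inr (h1 ▸ h)
    · exact (fr_noQ F hf.1 (h1 ▸ h) tq).elim
    · exact (fr_noQ F hf.1 (h1 ▸ h) tk).elim

/-- `T1`-vertices near the four vertices of `U4` -/
theorem t1_V {t r a q k : V} (h0 : Sv G c t r a q) (ta : tA G c a) (tq : tQ G c q)
    (hq : Rm G c q k) {s : V} (hs : Avl G c H s) (hn : ¬ Clr G (H ∪ {t, a, q, k}) s) :
    s = t ∨ s = r ∨ G.Adj a s ∨ G.Adj k s := by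
  have tk : tQ G c k := ⟨by rw [hq.2]; exact tq.1, mu_of_rm F.mu1 hq.symm⟩
  have sS := t1G_tS hs.1
  have tS' := t1G_tS (ov_T1 F h0 ta tq)
  rcases not_clr' hs.2 hn with h | ⟨w, h, h1⟩
  · simp only [Finset.mem_insert, Finset.mem_singleton] at h
    rcases h with h | h | h | h
    · exact Or.inl h
    · exact (tSG_ne_tA sS ta h).elim
    · have := sS.1
      rw [h, tq.1] at this
      cases this
    · have := sS.1
      rw [h, tk.1] at this
      cases this
  · simp only [Finset.mem_insert, Finset.mem_singleton] at h1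
    rcases h1 with h1 | h1 | h1 | h1
    · subst h1
      exact Or.inr (Or.inl (rm_uniq (F.mu1 w) ⟨h.symm, by rw [sS.1, h0.cs]⟩ (sv_rm h0)))
    · exact Or.inr (Or.inr (Or.inl (h1 ▸ h.symm)))
    · subst h1
      by_cases e : s = t
      · exact Or.inl e
      · right; left
        have h2 := F.f1 w t s tq tS' sS (n3c h0.n3).symm h.symm (fun h => e h.symm)
        exact rm_uniq (F.mu1 t) h2 (sv_rm h0)
    · exact Or.inr (Or.inr (Or.inr (h1 ▸ h.symm)))

/-- **classification of the good slots lost by `U4`** -/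
theorem lost_V (h3 : ¬ Q3G G c H) {t r a q k : V} (h0 : Sv G c t r a q) (ta : tA G c a)
    (tq : tQ G c q) (hq : Rm G c q k) {f x : V} (hg : GSG G c L H f x)
    (hn : ¬ GSG G c L (H ∪ {t, a, q, k}) f x) :
    (f = r ∨ G.Adj f a) ∨
    (∃ g r3, G.Adj k g ∧ Avl G c H g ∧ MSG G c H f x g r3) ∨
    (∃ s, Sr G c L f s ∧ Avl G c H s ∧ (s = t ∨ s = r ∨ G.Adj a s ∨ G.Adj k s) ∧
      ∃ g y v v' zx zy, Sqg G c f g x y v v' zx zy ∧ Live G c H g) := by
  have tk : tQ G c k := ⟨by rw [hq.2]; exact tq.1, mu_of_rm F.mu1 hq.symm⟩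
  have hl := hg.ls
  rcases st_GGL V G c j L H _ F Finset.subset_union_left f x hg hn with h | h |
    ⟨g, r3, h1, h2, h4, h5⟩ | ⟨g, y, v, v', zx, zy, hs, h1, h2, h4, h5, h6, h7, h8⟩
  · exact Or.inl (live_V F h0 ta tq hq hl.lv h)
  · left; right
    rcases not_clr' hl.cx h with h1 | ⟨w, h1, h2⟩
    · simp only [Finset.mem_insert, Finset.mem_singleton] at h1
      rcases h1 with h1 | h1 | h1 | h1
      · exact (tSG_ne_tA (t1G_tS (ov_T1 F h0 ta tq)) hl.ta h1.symm).elim
      · exact h1 ▸ hl.adj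
      · exact (tA_not_tQ hl.ta (h1 ▸ tq)).elim
      · exact (tA_not_tQ hl.ta (h1 ▸ tk)).elim
    · simp only [Finset.mem_insert, Finset.mem_singleton] at h2
      rcases h2 with h2 | h2 | h2 | h2
      · subst h2
        have e : x = a := t1_A F (ov_T1 F h0 ta tq) h1.symm (n3b h0.n3) hl.ta ta
        exact e ▸ hl.adj
      · exact (no_AA hl.ta ta (h2 ▸ h1)).elim
      · have := false_of_A hl.ta.1 hl.ta.2 h1
        rw [h2, tq.1] at this
        cases this
      · have := false_of_A hl.ta.1 hl.ta.2 h1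
        rw [h2, tk.1] at this
        cases this
  · obtain ⟨-, k1, k2, k3, k4, k5, k6, k7⟩ := id h1
    rcases t1_V F h0 ta tq hq h2 h4 with e | e | e | e
    · subst e
      have e : x = a := t1_A F k3 k1.symm (n3b h0.n3) hl.ta ta
      exact Or.inl (Or.inr (e ▸ hl.adj))
    · subst e
      exact (h5 (by rw [rm_uniq (F.mu1 g) k4 (sv_rm h0).symm]; simp)).elim
    · have e : x = a := t1_A F k3 k1.symm e.symm hl.ta ta
      exact Or.inl (Or.inr (e ▸ hl.adj))
    · exact Or.inr (Or.inl ⟨g, r3, e, h2, h1⟩)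
  · have hgl : Live G c H g := h2.mono Finset.subset_union_left
    have q1 : Live G c H v → False := fun h =>
      h3 ⟨g, f, x, y, v', v, zx, zy, hs.swap, hgl, hl.lv, sqg_ls hs hl hgl, h⟩
    have q2 : Live G c H v' → False := fun h =>
      h3 ⟨f, g, x, y, v, v', zx, zy, hs, hl.lv, hgl, hl, h⟩
    right; right
    rcases h4 with h4 | h4 | h4 | ⟨y', h4, h4'⟩
    · exact (q1 h4).elim
    · exact ⟨v, Or.inl (sv_rm hs.h1), h4, t1_V F h0 ta tq hq h4 (fun h => h6 ⟨h4.1, h⟩),
        g, y, v, v', zx, zy, hs, hgl⟩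
    · exact (q2 h4).elim
    · exact ⟨y', Or.inr ⟨v, sv_rm hs.h1, h4⟩, h4', t1_V F h0 ta tq hq h4'
        (fun h => h8 y' h4 ⟨h4'.1, h⟩), g, y, v, v', zx, zy, hs, hgl⟩

end facts

end Pool.Agent.Helper79.MC
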