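import Mathlib
import Pool.Agent.Helper79.MC.U4a

/-!
MP_4042d8_co, section D, part II: cost of `U4(t)`, the vertices around `a`.
-/

set_option autoImplicit false
set_option linter.unusedSectionVars false
set_option linter.unusedSimpArgs false
set_option linter.unusedVariables false

namespace Pool.Agent.Helper79.MC

open Pool.Agent.Helper27.MC hiding Fr T1 ter
open Pool.Agent.Helper51.MC Pool.Agent.Helper88.MC Pool.Agent.Helper64.MC
open Pool.Agent.Helper33.MC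
open Pool.Agent.Helper91.MC.GK (Khb)
open Pool.Agent.Helper91.MC (mem_Fr mem_T1 mem_Dd sv_Fr sv_T1 sv_Dd sv_ex sv_rm sv_swap sv_tS
  tA_or_tQ tB_or_tS tA_not_tQ av_ex)
open Pool.Agent.Helper96.MC (Td Apx Lx Exm Lp Lpp Tp)
open Pool.Agent.Helper6.MC (Brn gb_iff lkV t1_A)

section defs

variable {V : Type} [Fintype V] [DecidableEq V] (G : SimpleGraph V) [DecidableRel G.Adj]

/-- `f` is `r`, or has the source `t` or `r` -/
def X0 (c : V → Bool) (L : V → V → Prop) (H : Finset V) (t r f : V) : Prop :=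
  Live G c H f ∧ (f = r ∨ ∃ s, Sr G c L f s ∧ Avl G c H s ∧ (s = t ∨ s = r))

/-- `f` is `p` or has the source `p` -/
def X1 (c : V → Bool) (L : V → V → Prop) (H : Finset V) (p f : V) : Prop :=
  Live G c H f ∧ (f = p ∨ (p ∈ T1 G c ∧ Sr G c L f p))

end defs

variable {V : Type} [Fintype V] [DecidableEq V] {G : SimpleGraph V} [DecidableRel G.Adj]
  {c : V → Bool} {j : ℕ} {L : V → V → Prop} {H H' : Finset V}

theorem pick2 {X Y Z : V → Prop} (x : V) (u0 : ∀ f f', X f → X f' → f = f')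
    (u1 : ∀ f f', Y f → Y f' → f = f') (u2 : ∀ f f', Z f → Z f' → f = f')
    (h : ∀ f g k, X f → Y g → Z k → f ≠ g → f ≠ k → g ≠ k → False) :
    ∃ e1 e2, ∀ f, X f ∨ Y f ∨ Z f → f = e1 ∨ f = e2 := by
  by_cases E0 : ∃ f, X f
  · obtain ⟨f0, hf0⟩ := E0
    by_cases E1 : ∃ f, Y f
    · obtain ⟨f1, hf1⟩ := E1
      by_cases a1 : f0 = f1
      · by_cases E2 : ∃ f, Z f
        · obtain ⟨f2, hf2⟩ := E2
          refine ⟨f0, f2, fun f hf => ?_⟩
          rcases hf with hf | hf | hf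
          · exact Or.inl (u0 f f0 hf hf0)
          · exact Or.inl ((u1 f f1 hf hf1).trans a1.symm)
          · exact Or.inr (u2 f f2 hf hf2)
        · refine ⟨f0, f0, fun f hf => ?_⟩
          rcases hf with hf | hf | hf
          · exact Or.inl (u0 f f0 hf hf0)
          · exact Or.inl ((u1 f f1 hf hf1).trans a1.symm)
          · exact (E2 ⟨f, hf⟩).elim
      · refine ⟨f0, f1, fun f hf => ?_⟩
        rcases hf with hf | hf | hf
        · exact Or.inl (u0 f f0 hf hf0)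
        · exact Or.inr (u1 f f1 hf hf1)
        · by_cases a2 : f0 = f
          · exact Or.inl a2.symm
          · by_cases a3 : f1 = f
            · exact Or.inr a3.symm
            · exact (h f0 f1 f hf0 hf1 hf a1 a2 a3).elim
    · by_cases E2 : ∃ f, Z f
      · obtain ⟨f2, hf2⟩ := E2
        refine ⟨f0, f2, fun f hf => ?_⟩
        rcases hf with hf | hf | hf
        · exact Or.inl (u0 f f0 hf hf0)
        · exact (E1 ⟨f, hf⟩).elim
        · exact Or.inr (u2 f f2 hf hf2)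
      · refine ⟨f0, f0, fun f hf => ?_⟩
        rcases hf with hf | hf | hf
        · exact Or.inl (u0 f f0 hf hf0)
        · exact (E1 ⟨f, hf⟩).elim
        · exact (E2 ⟨f, hf⟩).elim
  · obtain ⟨e1, h1⟩ : ∃ e1, ∀ f, Y f → f = e1 := by
      by_cases E1 : ∃ f, Y f
      · obtain ⟨f1, hf1⟩ := E1
        exact ⟨f1, fun f hf => u1 f f1 hf hf1⟩
      · exact ⟨x, fun f hf => (E1 ⟨f, hf⟩).elim⟩
    obtain ⟨e2, h2⟩ : ∃ e2, ∀ f, Z f → f = e2 := by
      by_cases E2 : ∃ f, Z f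
      · obtain ⟨f2, hf2⟩ := E2
        exact ⟨f2, fun f hf => u2 f f2 hf hf2⟩
      · exact ⟨x, fun f hf => (E2 ⟨f, hf⟩).elim⟩
    refine ⟨e1, e2, fun f hf => ?_⟩
    rcases hf with hf | hf | hf
    · exact (E0 ⟨f, hf⟩).elim
    · exact Or.inl (h1 f hf)
    · exact Or.inr (h2 f hf)

theorem pick1 {X : V → Prop} (x : V) (u : ∀ f f', X f → X f' → f = f') :
    ∃ e, ∀ f, X f → f = e := by
  by_cases he : ∃ e, X e
  · obtain ⟨e, he⟩ := he
    exact ⟨e, fun f hf => u f e hf he⟩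
  · exact ⟨x, fun f hf => (he ⟨f, hf⟩).elim⟩

section facts

variable (F : FxG G c j L)
include F

/-- the neighbour of type `Q` of a vertex of `T1` is unique -/
theorem t1_Q {t r a q w : V} (h0 : Sv G c t r a q) (ta : tA G c a) (hw : G.Adj t w)
    (tw : tQ G c w) : w = q := by
  rcases (h0.n3.nb w).1 hw with h | h | h
  · have := tw.1
    rw [h, h0.cm] at this
    cases this
  · exact (tA_not_tQ ta (h ▸ tw)).elim
  · exact h

/-- data of an apex with a source -/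
theorem td_rm {w p y y' n n' : V} (h : Td G c w p y y' n n') :
    Rm G c w p ∧ Rm G c y y' ∧ G.Adj y w ∧ G.Adj y' w ∧ tQ G c w := by
  have h1 : Rm G c w p := ⟨n3a h.nq, by rw [h.cq, h.cp]⟩
  exact ⟨h1, ⟨n3b h.nx, by rw [h.cx, h.cx']⟩, n3a h.nx,
    n3a h.nx', ⟨h.cq, mu_of_rm F.mu1 h1⟩⟩

/-- if the mate `r` of `t` is a source and `t` is not, then `k` has no neighbour in `T1` -/
theorem no_k {t r a q k m g : V} (h0 : Sv G c t r a q) (ta : tA G c a) (tq : tQ G c q)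
    (hq : Rm G c q k) (hL : L m r) (hkg : G.Adj k g) (hg : g ∈ T1 G c) : False := by
  have tk : tQ G c k := ⟨by rw [hq.2]; exact tq.1, mu_of_rm F.mu1 hq.symm⟩
  obtain ⟨hr, w, p, y', n, n', d, h1, h2, h3, h4, h5⟩ := F.lx.src m r hL
  obtain ⟨e1, e2, e3, e4, e5⟩ := td_rm F h1
  have e6 : y' = t := rm_uniq (F.mu1 r) e2 (sv_rm h0).symm
  subst e6
  have e7 : w = q := t1_Q F h0 ta e4 e5
  subst e7
  have e8 : p = k := rm_uniq (F.mu1 w) e1 hq
  subst e8
  have dS : tS G c d := (mem_Dd.1 h5).1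
  have dn := (mem_Dd.1 h5).2
  have hgn := (mem_T1.1 hg).2
  have hne : g ≠ d := by
    rintro rfl
    omega
  have hr := F.f1 p g d tk (t1G_tS hg) dS hkg h4 hne
  exact h3 ⟨g, d, tk, hkg, h4, hr, (t1G_tS hg).1⟩

theorem X.cls {t r a q p1 p2 : V} (h0 : Sv G c t r a q) (ta : tA G c a) (tq : tQ G c q)
    (av : Av G c a t p1 p2) {f : V} (hf : Live G c H f) (h : f = r ∨ G.Adj f a ∨
      ∃ s, Sr G c L f s ∧ Avl G c H s ∧ (s = t ∨ s = r ∨ G.Adj a s)) :
    X0 G c L H t r f ∨ X1 G c L H p1 f ∨ X1 G c L H p2 f := by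
  rcases h with h | h | ⟨s, h1, h2, h3⟩
  · exact Or.inl ⟨hf, Or.inl h⟩
  · rcases (av.n3.nb f).1 h.symm with e | e | e
    · exact (frG_not_T1 hf.1 (e ▸ ov_T1 F h0 ta tq)).elim
    · exact Or.inr (Or.inl ⟨hf, Or.inl e⟩)
    · exact Or.inr (Or.inr ⟨hf, Or.inl e⟩)
  · rcases h3 with h3 | h3 | h3
    · exact Or.inl ⟨hf, Or.inr ⟨s, h1, h2, Or.inl h3⟩⟩
    · exact Or.inl ⟨hf, Or.inr ⟨s, h1, h2, Or.inr h3⟩⟩
    · rcases (av.n3.nb s).1 h3 with e | e | e
      · exact Or.inl ⟨hf, Or.inr ⟨s, h1, h2, Or.inl e⟩⟩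
      · exact Or.inr (Or.inl ⟨hf, Or.inr ⟨e ▸ h2.1, e ▸ h1⟩⟩)
      · exact Or.inr (Or.inr ⟨hf, Or.inr ⟨e ▸ h2.1, e ▸ h1⟩⟩)

theorem X1.uq {p f f' : V} (h : X1 G c L H p f) (k : X1 G c L H p f') : f = f' := by
  obtain ⟨h1, h2⟩ := h
  obtain ⟨k1, k2⟩ := k
  rcases h2 with h2 | ⟨h2, h3⟩ <;> rcases k2 with k2 | ⟨k2, k3⟩
  · rw [h2, k2]
  · exact (frG_not_T1 h1.1 (h2 ▸ k2)).elim
  · exact (frG_not_T1 k1.1 (k2 ▸ h2)).elim
  · exact Sr.inj F h1.1 k1.1 h3 k3

/-- the two kinds of the vertices in `X0` -/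
theorem X0.kind {t r : V} (hm : Rm G c t r) (hT : t ∈ T1 G c) {f : V} (h : X0 G c L H t r f) :
    (f = r) ∨ (r ∉ Fr G c ∧ ∃ s m, Rm G c f m ∧ L m s ∧ Avl G c H s ∧ (s = t ∨ s = r)) := by
  obtain ⟨hf, h⟩ := h
  rcases h with h | ⟨s, h1, h2, h3⟩
  · exact Or.inl h
  rcases h1 with h1 | ⟨m, h1, h5⟩
  · rcases h3 with h3 | h3
    · subst h3
      exact Or.inl (rm_uniq (F.mu1 s) h1.symm hm)
    · subst h3
      exact (frG_not_T1 hf.1 (rm_uniq (F.mu1 s) h1.symm hm.symm ▸ hT)).elim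
  · refine Or.inr ⟨fun hr => ?_, s, m, h1, h5, h2, h3⟩
    rcases h3 with h3 | h3
    · subst h3
      exact src_mate F h5 hm hr
    · subst h3
      exact frG_not_T1 hr h2.1

theorem X0.uq {t r : V} (hm : Rm G c t r) (hT : t ∈ T1 G c) {f f' : V} (h : X0 G c L H t r f)
    (k : X0 G c L H t r f') : f = f' := by
  rcases X0.kind F hm hT h with h1 | ⟨h1, s, m, h2, h3, h4, h5⟩ <;>
    rcases X0.kind F hm hT k with k1 | ⟨k1, s', m', k2, k3, k4, k5⟩
  · rw [h1, k1]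
  · exact (k1 (h1 ▸ h.1.1)).elim
  · exact (h1 (k1 ▸ k.1.1)).elim
  · have e : m = m' := by
      rcases h5 with e | e <;> rcases k5 with e' | e'
      · subst e e'
        exact F.lx.inj m m' _ h3 k3
      · subst e e'
        exact F.lm m m' _ _ h3 k3 hm
      · subst e e'
        exact F.lm m m' _ _ h3 k3 hm.symm
      · subst e e'
        exact F.lx.inj m m' _ h3 k3
    subst e
    exact rm_uniq (F.mu1 m) h2.symm k2.symm

end facts

end Pool.Agent.Helper79.MC
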