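import Mathlib
import Pool.Agent.Helper79.MC.U4b

/-!
MP_4042d8_co, section D, part II: cost of `U4(t)`, the vertices around `a`, conclusion.
-/

set_option autoImplicit false
set_option linter.unusedSectionVars false
set_option linter.unusedSimpArgs false
set_option linter.unusedVariables false

namespace Pool.Agent.Helper79.MC

open Pool.Agent.Helper27.MC hiding Fr T1 ter
open Pool.Agent.Helper51.MC Pool.Agent.Helper88.MC Pool.Agent.Helper64.MC
open Pool.Agent.Helper33.MC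
open Pool.Agent.Helper91.MC.GK (Khb)
open Pool.Agent.Helper91.MC (mem_Fr mem_T1 mem_Dd sv_Fr sv_T1 sv_Dd sv_ex sv_rm sv_swap sv_tS
  tA_or_tQ tB_or_tS tA_not_tQ av_ex)
open Pool.Agent.Helper96.MC (Td Apx Lx Exm Lp Lpp Tp)
open Pool.Agent.Helper6.MC (Brn gb_iff lkV t1_A)

variable {V : Type} [Fintype V] [DecidableEq V] {G : SimpleGraph V} [DecidableRel G.Adj]
  {c : V → Bool} {j : ℕ} {L : V → V → Prop} {H H' : Finset V}

section facts

variable (F : FxG G c j L)
include F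

theorem X1.ty {p f : V} (h : X1 G c L H p f) : p ∈ Fr G c ∨ p ∈ T1 G c := by
  obtain ⟨h1, h2⟩ := h
  rcases h2 with h2 | h2
  · exact Or.inl (h2 ▸ h1.1)
  · exact Or.inr h2.1

theorem X1.tys {p f : V} (h : X1 G c L H p f) : tS G c p := by
  rcases X1.ty F h with h | h
  · exact frG_tS h
  · exact t1G_tS h

/-- two different vertices at mates `p1`, `p2`: both are free -/
theorem X1.both {p1 p2 f1 f2 : V} (m12 : Rm G c p1 p2) (x1 : X1 G c L H p1 f1)
    (x2 : X1 G c L H p2 f2) (n12 : f1 ≠ f2) : f1 = p1 ∧ f2 = p2 := by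
  have t1 := X1.ty F x1
  have t2 := X1.ty F x2
  obtain ⟨l1, x1⟩ := x1
  obtain ⟨l2, x2⟩ := x2
  rcases x1 with x1 | ⟨a1, x1⟩ <;> rcases x2 with x2 | ⟨a2, x2⟩
  · exact ⟨x1, x2⟩
  · exact (n12 (x1.trans (Sr.free F (x1 ▸ l1.1) m12.symm x2).symm)).elim
  · exact (n12 ((Sr.free F (x2 ▸ l2.1) m12 x1).trans x2.symm)).elim
  · exact (n12 (Sr.mates F l1.1 l2.1 a1 a2 m12 x1 x2)).elim

/-- `t` is no source of a live free vertex if both other neighbours of `a` are free -/
theorem no_src {t a p1 p2 m : V} (hT : t ∈ T1 G c) (ta : tA G c a) (hta : G.Adj t a)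
    (av : Av G c a t p1 p2) (b1 : p1 ∈ Fr G c) (b2 : p2 ∈ Fr G c) (hL : L m t) : False := by
  rcases F.lx.two m t hL with ⟨y, n, k1, k2, k3, k4⟩ | ⟨w, p, y1, y2, m1, m2, u1', u2', z1, z2,
    k1, k2, k3, k4, k5, k6, k7, k8, k9, k10, k11⟩
  · have e : t = y := (k1 t).1 hL
    subst e
    have e : n = a := t1_A F hT k2 hta k3 ta
    subst e
    exact k4 p1 b1 (n3b av.n3)
  · have key : ∀ z, tB G c z → z ≠ p1 ∧ z ≠ p2 := by
      intro z hz
      constructor
      · rintro rfl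
        have := (frG_tS b1).2
        rw [hz.2] at this
        cases this
      · rintro rfl
        have := (frG_tS b2).2
        rw [hz.2] at this
        cases this
    rcases (k4 t).1 hL with e | e
    · subst e
      have e : m1 = a := t1_A F hT (n3c k1.nx) hta k2 ta
      subst e
      rcases (av.n3.nb z1).1 (n3c k5) with h9 | h9 | h9
      · exact k5.xz h9.symm
      · exact (key z1 k10).1 h9
      · exact (key z1 k10).2 h9
    · subst e
      have e : m2 = a := t1_A F hT (n3c k1.nx') hta k3 ta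
      subst e
      rcases (av.n3.nb z2).1 (n3c k6) with h9 | h9 | h9
      · exact k6.xz h9.symm
      · exact (key z2 k11).1 h9
      · exact (key z2 k11).2 h9

/-- three different vertices: `k` has no neighbour in `T1` -/
theorem three_no (h4 : ¬ Q4G G c H) {t r a q k p1 p2 f0 f1 f2 g : V} (h0 : Sv G c t r a q)
    (ta : tA G c a) (tq : tQ G c q) (hq : Rm G c q k) (ct : Clr G H t) (av : Av G c a t p1 p2)
    (x0 : X0 G c L H t r f0) (x1 : X1 G c L H p1 f1) (x2 : X1 G c L H p2 f2) (n01 : f0 ≠ f1)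
    (n02 : f0 ≠ f2) (n12 : f1 ≠ f2) (hkg : G.Adj k g) (hg : g ∈ T1 G c) : False := by
  have hT := ov_T1 F h0 ta tq
  have hm := sv_rm h0
  -- `r` is not at `a`
  have rp : ∀ p f, X1 G c L H p f → f0 ≠ f → p ≠ r := by
    rintro p f ⟨h1, h2⟩ hne rfl
    rcases h2 with h2 | ⟨h2, h3⟩
    · exact hne (X0.uq F hm hT x0 ⟨h1, Or.inl h2⟩)
    · rcases x0.2 with h6 | ⟨s, h6, h7, h8⟩
      · exact frG_not_T1 (h6 ▸ x0.1.1) h2
      · rcases h8 with h8 | h8
        · subst h8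
          exact hne (Sr.mates F x0.1.1 h1.1 h7.1 h2 hm h6 h3)
        · subst h8
          exact hne (Sr.inj F x0.1.1 h1.1 h6 h3)
  have r1 := rp p1 f1 x1 n01
  have r2 := rp p2 f2 x2 n02
  have m12 : Rm G c p1 p2 := by
    rcases F.f2 a t p1 p2 av ta (t1G_tS hT) (X1.tys F x1) (X1.tys F x2) with h | h | h
    · exact (r1 (rm_uniq (F.mu1 t) h hm)).elim
    · exact (r2 (rm_uniq (F.mu1 t) h hm)).elim
    · exact h
  obtain ⟨e1, e2⟩ := X1.both F m12 x1 x2 n12
  subst e1 e2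
  have b1 := x1.1.1
  have b2 := x2.1.1
  have ac : G.Adj a f1 := n3b av.n3
  have ca : Clr G H a := by
    refine ⟨x1.1.2.2 a ac.symm, fun w hw => ?_⟩
    rcases (av.n3.nb w).1 hw with e | e | e
    · exact e ▸ ct.1
    · exact e ▸ x1.1.2.1
    · exact e ▸ x2.1.2.1
  have hr0 : f0 ≠ r := by
    rintro rfl
    refine h4 ⟨f1, a, t, f0, ⟨⟨b1, ta, ac.symm, x1.1.2, ca⟩, n3a av.n3,
      av.n3.xy, hT, hm, n01, x0.1.2.1, ?_⟩, x0.1⟩
    intro w hw h5 h6
    rcases (av.n3.nb w).1 hw with e | e | e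
    · exact (h6 e).elim
    · exact (h5 e).elim
    · subst e
      intro y hy
      exact Or.inl (rm_uniq (F.mu1 w) hy m12.symm)
  rcases X0.kind F hm hT x0 with e | ⟨-, s, m, h5, h8, -, h7⟩
  · exact hr0 e
  · rcases h7 with h7 | h7
    · subst h7
      exact no_src F hT ta (n3b h0.n3) av b1 b2 h8
    · subst h7
      exact no_k F h0 ta tq hq h8 hkg hg

/-- **the vertices killed around `a`**: at most two, or at most three and `k` has no neighbour in
`T1` -/
theorem near_a (h4 : ¬ Q4G G c H) {t r a q k p1 p2 : V} (h0 : Sv G c t r a q) (ta : tA G c a)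
    (tq : tQ G c q) (hq : Rm G c q k) (ct : Clr G H t) (av : Av G c a t p1 p2) :
    (∃ e1 e2, ∀ f, Live G c H f → (f = r ∨ G.Adj f a ∨
      ∃ s, Sr G c L f s ∧ Avl G c H s ∧ (s = t ∨ s = r ∨ G.Adj a s)) → f = e1 ∨ f = e2) ∨
    ((∃ e1 e2 e3, ∀ f, Live G c H f → (f = r ∨ G.Adj f a ∨
      ∃ s, Sr G c L f s ∧ Avl G c H s ∧ (s = t ∨ s = r ∨ G.Adj a s)) → f = e1 ∨ f = e2 ∨ f = e3) ∧
      ∀ g, G.Adj k g → g ∉ T1 G c) := by
  have hT := ov_T1 F h0 ta tq
  have hm := sv_rm h0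
  by_cases hg : ∃ g, G.Adj k g ∧ g ∈ T1 G c
  · left
    obtain ⟨g, hkg, hg⟩ := hg
    obtain ⟨e1, e2, he⟩ := pick2 t (fun f f' => X0.uq (L := L) (H := H) F hm hT)
      (fun f f' => X1.uq (L := L) (H := H) (p := p1) F)
      (fun f f' => X1.uq (L := L) (H := H) (p := p2) F)
      (fun f0 f1 f2 x0 x1 x2 n01 n02 n12 =>
        three_no F h4 h0 ta tq hq ct av x0 x1 x2 n01 n02 n12 hkg hg)
    exact ⟨e1, e2, fun f hf h => he f (X.cls F h0 ta tq av hf h)⟩
  · right
    refine ⟨?_, fun g h1 h2 => hg ⟨g, h1, h2⟩⟩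
    obtain ⟨e0, g0⟩ := pick1 t (fun f f' => X0.uq (L := L) (H := H) F hm hT)
    obtain ⟨e1, g1⟩ := pick1 t (fun f f' => X1.uq (L := L) (H := H) (p := p1) F)
    obtain ⟨e2, g2⟩ := pick1 t (fun f f' => X1.uq (L := L) (H := H) (p := p2) F)
    refine ⟨e0, e1, e2, fun f hf h => ?_⟩
    rcases X.cls F h0 ta tq av hf h with h | h | h
    · exact Or.inl (g0 f h)
    · exact Or.inr (Or.inl (g1 f h))
    · exact Or.inr (Or.inr (g2 f h))

end facts

end Pool.Agent.Helper79.MC
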