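import Mathlib
import Pool.Agent.Helper79.MC.U4b

/-!
MP_4042d8_co, section D, part II: cost of `U4(t)`, the slots near `k`.
-/

set_option autoImplicit false
set_option linter.unusedSectionVars false
set_option linter.unusedSimpArgs false
set_option linter.unusedVariables false

namespace Pool.Agent.Helper79.MC

open Pool.Agent.Helper27.MC hiding Fr T1 ter
open Pool.Agent.Helper51.MC Pool.Agent.Helper88.MC Pool.Agent.Helper64.MC
open Pool.Agent.Helper33.MC
open Pool.Agent.Helper91.MC.GK (Khb)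
open Pool.Agent.Helper91.MC (mem_Fr mem_T1 mem_Dd sv_Fr sv_T1 sv_Dd sv_ex sv_rm sv_swap sv_tS
  tA_or_tQ tB_or_tS tA_not_tQ av_ex)
open Pool.Agent.Helper96.MC (Td Apx Lx Exm Lp Lpp Tp)
open Pool.Agent.Helper6.MC (Brn gb_iff lkV t1_A)

variable {V : Type} [Fintype V] [DecidableEq V] {G : SimpleGraph V} [DecidableRel G.Adj]
  {c : V → Bool} {j : ℕ} {L : V → V → Prop} {H H' : Finset V}

section facts

variable (F : FxG G c j L)
include F

/-- the slots killed at `k` -/
theorem near_k (h4 : ¬ Q4G G c H) {t r a q k : V} (h0 : Sv G c t r a q) (ta : tA G c a)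
    (tq : tQ G c q) (hq : Rm G c q k) :
    Cw G c 4 (fun f x => LS G c H f x ∧ ((∃ g r3, G.Adj k g ∧ Avl G c H g ∧ MSG G c H f x g r3) ∨
      ∃ s, Sr G c L f s ∧ Avl G c H s ∧ G.Adj k s)) (fun _ => False) := by
  have hT := ov_T1 F h0 ta tq
  have hm := sv_rm h0
  have tk : tQ G c k := ⟨by rw [hq.2]; exact tq.1, mu_of_rm F.mu1 hq.symm⟩
  by_cases hg : ∃ g, G.Adj k g ∧ Avl G c H g
  swap
  · refine (Cw.none (fun f x h => ?_) (fun _ h => h)).mono (by norm_num) (fun _ _ h => h)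
      (fun _ h => h)
    rcases h.2 with ⟨g, r3, h1, h2, -⟩ | ⟨s, -, h1, h2⟩
    · exact hg ⟨g, h1, h2⟩
    · exact hg ⟨s, h2, h1⟩
  obtain ⟨g, hkg, hga⟩ := hg
  have uq : ∀ s, G.Adj k s → Avl G c H s → s = g := fun s h1 h2 =>
    F.o1 q k t s g tq hq (n3c h0.n3).symm hT h1 hkg h2.1 hga.1
  by_cases hf : ∃ f0, Live G c H f0 ∧ Sr G c L f0 g
  · obtain ⟨f0, l0, h1⟩ := hf
    refine (Cw.fst F.reg F.mu1 H f0).mono le_rfl ?_ (fun _ h => h.elim)
    rintro f x ⟨hl, h⟩
    rcases h with ⟨g', r3, k1, k2, k3⟩ | ⟨s, k1, k2, k3⟩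
    · exfalso
      have e := uq g' k1 k2
      subst e
      obtain ⟨-, j1, j2, j3, j4, j5, j6, j7⟩ := id k3
      rcases h1 with h1 | ⟨m, h1, h2⟩
      · exact h4 ⟨f, x, g', r3, k3, rm_uniq (F.mu1 g') h1.symm j4 ▸ l0⟩
      · rcases F.lx.two m g' h2 with ⟨y, n, i1, i2, i3, i4⟩ | ⟨w, p, y1, y2, m1, m2, u1', u2', z1, z2,
          i1, i2, i3, i4, i5, i6, i7, i8, i9, i10, i11⟩
        · have e : g' = y := (i1 g').1 h2
          subst e
          have e : n = x := t1_A F j3 i2 j1.symm i3 hl.ta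
          subst e
          exact i4 f hl.fr hl.adj.symm
        · obtain ⟨e1, e2, e3, e4, e5⟩ := td_rm F i1
          obtain ⟨m', b', hs'⟩ := sv_ex F.reg (t1G_tS j3) j1.symm hl.ta.1
          have b1 : w = b' ∧ k = b' := by
            have tb' : tQ G c b' := by
              rcases (sv_T1 F.mu1 hs').1 j3 with h | h
              · exact h.2
              · exact (tA_not_tQ hl.ta h.1).elim
            have gw : G.Adj g' w := by
              rcases (i4 g').1 h2 with e | e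
              · exact e ▸ e3
              · exact e ▸ e4
            exact ⟨t1_Q F hs' hl.ta gw e5, t1_Q F hs' hl.ta k1.symm tk⟩
          have kw : k = w := b1.2.trans b1.1.symm
          have L1 := (F.lx.src m y1 ((i4 y1).2 (Or.inl rfl))).1
          have L2 := (F.lx.src m y2 ((i4 y2).2 (Or.inr rfl))).1
          have e6 : y1 = y2 := F.o1 q k t y1 y2 tq hq (n3c h0.n3).symm hT
            (kw ▸ e3.symm) (kw ▸ e4.symm) L1 L2
          subst e6
          exact G.loopless.irrefl y1 e2.1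
    · have e := uq s k3 k2
      subst e
      exact ⟨Sr.inj F hl.fr l0.1 k1 h1, hl⟩
  · -- only `M`-slots at the neighbour of type `A` of `g`
    obtain ⟨x0, hx0, tx0⟩ : ∃ x0, G.Adj g x0 ∧ tA G c x0 := by
      obtain ⟨m, b, hs⟩ := sv_ex F.reg (t1G_tS hga.1) hkg.symm tk.1
      rcases (sv_T1 F.mu1 hs).1 hga.1 with h | h
      · exact (tA_not_tQ h.1 tk).elim
      · exact ⟨b, n3c hs.n3, h.2⟩
    obtain ⟨p1, p2, av⟩ := av_ex F.reg tx0 hx0.symm
    refine ((Cw.pair (G := G) (c := c) p1 x0).or (Cw.pair p2 x0)).mono (by norm_num) ?_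
      (fun _ h => h.elim)
    rintro f x ⟨hl, h⟩
    rcases h with ⟨g', r3, k1, k2, k3⟩ | ⟨s, k1, k2, k3⟩
    · have e := uq g' k1 k2
      subst e
      obtain ⟨-, j1, j2, j3, j4, j5, j6, j7⟩ := k3
      have e : x = x0 := t1_A F j3 j1.symm hx0 hl.ta tx0
      subst e
      rcases (av.n3.nb f).1 hl.adj.symm with e | e | e
      · exact (j2 e.symm).elim
      · exact Or.inl ⟨e, rfl⟩
      · exact Or.inr ⟨e, rfl⟩
    · exact (hf ⟨f, hl.lv, uq s k3 k2 ▸ k1⟩).elim

end facts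

end Pool.Agent.Helper79.MC
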