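import Mathlib
import Pool.Agent.Helper79.MC.U4c
import Pool.Agent.Helper79.MC.U4d

/-!
MP_4042d8_co, section D, part II: the cost of the operation `U4(t)`.
-/

set_option autoImplicit false
set_option linter.unusedSectionVars false
set_option linter.unusedSimpArgs false
set_option linter.unusedVariables false

namespace Pool.Agent.Helper79.MC

open Pool.Agent.Helper27.MC hiding Fr T1 ter
open Pool.Agent.Helper51.MC Pool.Agent.Helper88.MC Pool.Agent.Helper64.MC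
open Pool.Agent.Helper33.MC
open Pool.Agent.Helper91.MC.GK (Khb)
open Pool.Agent.Helper91.MC (mem_Fr mem_T1 mem_Dd sv_Fr sv_T1 sv_Dd sv_ex sv_rm sv_swap sv_tS
  tA_or_tQ tB_or_tS tA_not_tQ av_ex)
open Pool.Agent.Helper96.MC (Td Apx Lx Exm Lp Lpp Tp)
open Pool.Agent.Helper6.MC (Brn gb_iff lkV t1_A)

variable {V : Type} [Fintype V] [DecidableEq V] {G : SimpleGraph V} [DecidableRel G.Adj]
  {c : V → Bool} {j : ℕ} {L : V → V → Prop} {H H' : Finset V}

section facts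

variable (F : FxG G c j L)
include F

/-- **the cost of `U4(t)`** -/
theorem u4_cost (h3 : ¬ Q3G G c H) (h4 : ¬ Q4G G c H) {t r a q k : V} (h0 : Sv G c t r a q)
    (ta : tA G c a) (tq : tQ G c q) (hq : Rm G c q k) (ct : Clr G H t) :
    LossG G c L H (H ∪ {t, a, q, k}) 12 3 := by
  obtain ⟨p1, p2, av⟩ := av_ex F.reg ta (n3b h0.n3).symm
  have tk : tQ G c k := ⟨by rw [hq.2]; exact tq.1, mu_of_rm F.mu1 hq.symm⟩
  -- classification in the form of two classes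
  set Y : V → Prop := fun f => f = r ∨ G.Adj f a ∨
    ∃ s, Sr G c L f s ∧ Avl G c H s ∧ (s = t ∨ s = r ∨ G.Adj a s) with hY
  set K : V → V → Prop := fun f x => LS G c H f x ∧ ((∃ g r3, G.Adj k g ∧ Avl G c H g ∧
    MSG G c H f x g r3) ∨ ∃ s, Sr G c L f s ∧ Avl G c H s ∧ G.Adj k s) with hK
  have clG : ∀ f x, GSG G c L H f x ∧ ¬ GSG G c L (H ∪ {t, a, q, k}) f x →
      (Y f ∧ LS G c H f x) ∨ K f x := by
    rintro f x ⟨h1, h2⟩
    rcases lost_V F h3 h0 ta tq hq h1 h2 with h | h | ⟨s, h5, h6, h7, -⟩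
    · left
      refine ⟨?_, h1.ls⟩
      rcases h with h | h
      · exact Or.inl h
      · exact Or.inr (Or.inl h)
    · exact Or.inr ⟨h1.ls, Or.inl h⟩
    · rcases h7 with h7 | h7 | h7 | h7
      · exact Or.inl ⟨Or.inr (Or.inr ⟨s, h5, h6, Or.inl h7⟩), h1.ls⟩
      · exact Or.inl ⟨Or.inr (Or.inr ⟨s, h5, h6, Or.inr (Or.inl h7)⟩), h1.ls⟩
      · exact Or.inl ⟨Or.inr (Or.inr ⟨s, h5, h6, Or.inr (Or.inr h7)⟩), h1.ls⟩
      · exact Or.inr ⟨h1.ls, Or.inr ⟨s, h5, h6, h7⟩⟩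
  have clB : ∀ t', GB G c H t' ∧ ¬ GB G c (H ∪ {t, a, q, k}) t' →
      ∃ f, Y f ∧ ∃ x, KP G c t' f x ∧ LS G c H f x := by
    rintro t' ⟨h1, h2⟩
    obtain ⟨f, k', hb⟩ := gb_iff.1 h1
    have h5 := lkV F h0 ta tq hq hb h2
    obtain ⟨v, x, y, t2, q2, q2', k2', K2, hl, hk⟩ := hb
    refine ⟨f, ?_, x, ⟨v, y, t2, q2, q2', k', k2', K2⟩, hl⟩
    rcases h5 with h | h
    · exact Or.inl h
    · exact Or.inr (Or.inl h)
  constructor
  · refine Cw.card F.mu1 ?_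
    rcases near_a F h4 h0 ta tq hq ct av with ⟨e1, e2, he⟩ | ⟨⟨e1, e2, e3, he⟩, hno⟩
    · refine (((Cw.fst F.reg F.mu1 H e1).or (Cw.fst F.reg F.mu1 H e2)).or
        (near_k (L := L) (H := H) F h4 h0 ta tq hq)).mono (by norm_num) ?_ ?_
      · intro f x h
        rcases clG f x h with ⟨h5, h6⟩ | h5
        · left
          rcases he f h6.lv h5 with e | e
          · exact Or.inl ⟨e, h6⟩
          · exact Or.inr ⟨e, h6⟩
        · exact Or.inr h5
      · intro t' h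
        obtain ⟨f, h5, x, h6, h7⟩ := clB t' h
        left
        rcases he f h7.lv h5 with e | e
        · exact Or.inl ⟨x, e ▸ h6, e ▸ h7⟩
        · exact Or.inr ⟨x, e ▸ h6, e ▸ h7⟩
    · refine (((Cw.fst F.reg F.mu1 H e1).or (Cw.fst F.reg F.mu1 H e2)).or
        (Cw.fst F.reg F.mu1 H e3)).mono (by norm_num) ?_ ?_
      · intro f x h
        rcases clG f x h with ⟨h5, h6⟩ | h5
        · rcases he f h6.lv h5 with e | e | e
          · exact Or.inl (Or.inl ⟨e, h6⟩)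
          · exact Or.inl (Or.inr ⟨e, h6⟩)
          · exact Or.inr ⟨e, h6⟩
        · exfalso
          rcases h5.2 with ⟨g, r3, h6, h7, -⟩ | ⟨s, -, h6, h7⟩
          · exact hno g h6 h7.1
          · exact hno s h7 h6.1
      · intro t' h
        obtain ⟨f, h5, x, h6, h7⟩ := clB t' h
        rcases he f h7.lv h5 with e | e | e
        · exact Or.inl (Or.inl ⟨x, e ▸ h6, e ▸ h7⟩)
        · exact Or.inl (Or.inr ⟨x, e ▸ h6, e ▸ h7⟩)
        · exact Or.inr ⟨x, e ▸ h6, e ▸ h7⟩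
  · have hsub : live G c H \ live G c (H ∪ {t, a, q, k}) ⊆ {r, p1, p2} := by
      intro f hf
      rw [Finset.mem_sdiff, mem_liv', mem_liv'] at hf
      obtain ⟨hf1, hf2⟩ := hf
      have hn : ¬ Clr G (H ∪ {t, a, q, k}) f := fun h => hf2 ⟨hf1.1, h⟩
      simp only [Finset.mem_insert, Finset.mem_singleton]
      rcases live_V F h0 ta tq hq hf1 hn with h | h
      · exact Or.inl h
      · rcases (av.n3.nb f).1 h.symm with e | e | e
        · exact (frG_not_T1 hf1.1 (e ▸ ov_T1 F h0 ta tq)).elim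
        · exact Or.inr (Or.inl e)
        · exact Or.inr (Or.inr e)
    exact (Finset.card_le_card hsub).trans Finset.card_le_three

/-- `U4` is possible at an available vertex of `T1` -/
theorem opV_of (hI : Inv G c H) {t : V} (ht : Avl G c H t) :
    ∃ r a q k, Sv G c t r a q ∧ tA G c a ∧ tQ G c q ∧ Rm G c q k ∧ k ∉ H := by
  obtain ⟨r, x, y, h1, h2, h3⟩ : ∃ r x y, Sv G c t r x y ∧ tA G c x ∧ tQ G c y := by
    have tS' := t1G_tS ht.1
    obtain ⟨m, a, b, _, _, hab, nb, cm, ca, cb⟩ := (NB V G F.reg c t).1 tS'.2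
    rw [tS'.1] at ca cb cm
    obtain ⟨m', b', hs⟩ := sv_ex F.reg tS' ((nb a).2 (Or.inr (Or.inl rfl))) ca
    rcases (sv_T1 F.mu1 hs).1 ht.1 with h | h
    · exact ⟨m', a, b', hs, h.1, h.2⟩
    · exact ⟨m', b', a, sv_swap hs, h.2, h.1⟩
  obtain ⟨k, hk⟩ := exists_mate h3.2
  have tk : tQ G c k := ⟨by rw [hk.2]; exact h3.1, mu_of_rm F.mu1 hk.symm⟩
  exact ⟨r, x, y, k, h1, h2, h3, hk, fun h =>
    ht.2.2 y (n3c h1.n3) (hI k y tk hk.symm h)⟩

/-- the vertex of a good branch is available -/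
theorem GB.avl {t : V} (h : GB G c H t) : Avl G c H t := by
  obtain ⟨u, v, a, b, t', q, q', k, k', K, h1, h2⟩ := h
  refine ⟨khb_T1 F.mu1 K, h1.cx.2 t (n3b K.ha.n3), fun w hw => ?_⟩
  rcases (K.h1.n3.nb w).1 hw with e | e | e
  · exact e ▸ h1.cx.2 t' (n3c K.ha.n3)
  · exact e ▸ h1.cx.1
  · exact e ▸ h2.2 q K.q1.symm.1

/-- a source exists -/
theorem src_ex (hN : ¬ PN G c H) (h3 : ¬ Q3G G c H) (hL : 0 < Lam2 G c L H) :
    ∃ t, Avl G c H t := by
  unfold Lam2 at hL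
  by_cases hg : (goodG G c L H).Nonempty
  · obtain ⟨p, hp⟩ := hg
    rw [mem_goodG] at hp
    obtain ⟨f, x⟩ := p
    simp only at hp
    have hl := hp.ls
    rcases hp.2 with h | ⟨t, h1, h2, h5, h6⟩ | ⟨g, h1, h2, h5, h6, h7⟩
    · exact (hN ⟨f, x, hl, h⟩).elim
    · exact ⟨t, h5⟩
    · obtain ⟨v, y, hs, ty⟩ := fr_svG F hl.fr hl.adj hl.ta
      obtain ⟨v', zx, zy, hq⟩ := sqg_of F hs hl.fr h6.1 (fun h => h2 h.symm) h5 h1 hl.ta
      rcases h7 with ⟨m, k1, k2⟩ | ⟨m, k1, k2⟩ | ⟨m, y', k1, k2, k3⟩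
      · rcases k2 with k2 | k2
        · rw [sv_mateG F hs k1] at k2
          exact (h3 ⟨g, f, x, y, v', v, zx, zy, hq.swap, h6, hl.lv, sqg_ls hq hl h6, k2⟩).elim
        · exact ⟨m, k2⟩
      · rw [sv_mateG F hq.h2 k1] at k2
        exact (h3 ⟨f, g, x, y, v, v', zx, zy, hq, hl.lv, h6, hl, k2⟩).elim
      · exact ⟨y', k3⟩
  · rw [Finset.not_nonempty_iff_eq_empty] at hg
    rw [hg, Finset.card_empty] at hL
    have hB : (goodB G c H).Nonempty := by
      rw [← Finset.card_pos]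
      omega
    obtain ⟨t, ht⟩ := hB
    exact ⟨t, GB.avl F (mem_goodB.1 ht)⟩

/-- **`U4` in cases 5s, 5n1**: total loss at most 12, at most 3 live vertices -/
theorem u4_any (hI : Inv G c H) (hN : ¬ PN G c H) (h3 : ¬ Q3G G c H) (h4 : ¬ Q4G G c H)
    (hL : 0 < Lam2 G c L H) : ∃ H', OpV G c H H' ∧ LossG G c L H H' 12 3 := by
  obtain ⟨t, ht⟩ := src_ex F hN h3 hL
  obtain ⟨r, a, q, k, h1, h2, h5, h6, h7⟩ := opV_of F hI ht
  exact ⟨_, ⟨t, r, a, q, k, h1, h2, h5, h6, ht.2, h7, rfl⟩, u4_cost F h3 h4 h1 h2 h5 h6 ht.2⟩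

end facts


end Pool.Agent.Helper79.MC
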