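import Mathlib
import Pool.Agent.Helper79.MC.U4
import Pool.Agent.Helper96.MC.G5S

/-!
MP_4042d8_co, section D, part II: Case 5s (row G_C5S).
-/

set_option autoImplicit false
set_option linter.unusedSectionVars false
set_option linter.unusedSimpArgs false
set_option linter.unusedVariables false

namespace Pool.Agent.Helper79.MC

open Pool.Agent.Helper27.MC hiding Fr T1 ter
open Pool.Agent.Helper51.MC Pool.Agent.Helper88.MC Pool.Agent.Helper64.MC
open Pool.Agent.Helper33.MC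
open Pool.Agent.Helper91.MC (sv_rm)

variable {V : Type} [Fintype V] [DecidableEq V] {G : SimpleGraph V} [DecidableRel G.Adj]
  {c : V → Bool} {j : ℕ} {L : V → V → Prop} {H H' : Finset V}

theorem Q3G.mono (hH : H ⊆ H') (h : Q3G G c H') : Q3G G c H := by
  obtain ⟨s1, s2, a, b, v1, v2, za, zb, h1, h2, h3, h4, h5⟩ := h
  exact ⟨s1, s2, a, b, v1, v2, za, zb, h1, h2.mono hH, h3.mono hH, h4.mono hH, h5.mono hH⟩

/-- `M`-slots of a later state are `M`-slots -/
theorem MSG.mono (F : FxG G c j L) (hH : H ⊆ H') {u a t r : V} (h : MSG G c H' u a t r) :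
    MSG G c H u a t r := by
  obtain ⟨hl, k2, k3, k4, k5, k6, k7, k8⟩ := h
  refine ⟨hl.mono hH, k2, k3, k4, k5, k6, fun h => k7 (hH h), fun w hw h1 h2 y hy => ?_⟩
  by_cases e : y = u
  · exact Or.inl e
  exfalso
  rcases k8 w hw h1 h2 y hy with h | h
  · exact e h
  obtain ⟨z1, z2, av⟩ := Pool.Agent.Helper91.MC.av_ex F.reg hl.ta hl.adj.symm
  have ws : tS G c w := ⟨Pool.Agent.Helper64.MC.false_of_A hl.ta.1 hl.ta.2 hw,
    mu_of_rm F.mu1 hy⟩
  have hav : Av G c a u t w := by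
    have e1 := (av.n3.nb t).1 k2
    have e2 := (av.n3.nb w).1 hw
    rcases e1 with e1 | e1 | e1
    · exact (k3 e1).elim
    · rcases e2 with e2 | e2 | e2
      · exact (h1 e2).elim
      · exact (h2 (e2.trans e1.symm)).elim
      · rw [e1, e2]; exact av
    · rcases e2 with e2 | e2 | e2
      · exact (h1 e2).elim
      · rw [e1, e2]; exact av_swap' av
      · exact (h2 (e2.trans e1.symm)).elim
  rcases F.f2 a u t w hav hl.ta (frG_tS hl.fr) (t1G_tS k4) ws with h5 | h5 | h5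
  · exact k6 (rm_uniq (F.mu1 t) k5 h5.symm)
  · exact e (rm_uniq (F.mu1 w) hy h5.symm)
  · have e3 : y = t := rm_uniq (F.mu1 w) hy h5.symm
    exact hl.cx.2 t k2 (e3 ▸ h)

theorem Q4G.mono (F : FxG G c j L) (hH : H ⊆ H') (h : Q4G G c H') : Q4G G c H := by
  obtain ⟨u, a, t, r, h1, h2⟩ := h
  exact ⟨u, a, t, r, MSG.mono F hH h1, h2.mono hH⟩

/-- row G_C5S -/
theorem st_GC5s : ST_GC5s := by
  intro V _ _ G _ c j L H F hI hN h2 h3 h4 hL h5
  obtain ⟨H1, k1, k2, k3, k4, k5⟩ := Pool.Agent.Helper96.MC.st_5SM V G c j L H F hI hN h2 h3 h4 h5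
  have e := LossG.lam k5
  obtain ⟨H', m1, m2⟩ := u4_any F k3 k4 (fun h => h3 (Q3G.mono k2 h)) (fun h => h4 (Q4G.mono F k2 h))
    (by omega : 0 < Lam2 G c L H1)
  exact ⟨H1, H', k1, m1, LossG.comp k5 m2⟩

end Pool.Agent.Helper79.MC
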